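import Pool.Agent.H88.TS.Def

/-! # [H12 TU HY4] Hypotheses of `main4`: `4 ≤ n`, no condition on contact at infinity (helper12) -/

namespace Pool.Agent.H12.TU

open MvPolynomial

/-- the hypotheses on the fixed part -/
structure Hy4 (n j : ℕ) (G : MvPolynomial (Fin 2) ℤ) : Prop where
  hn : 4 ≤ n
  hj : 3 ≤ j
  hjn : j < n
  deg : G.totalDegree ≤ n
  irr : Irreducible (MvPolynomial.map (Int.castRingHom ℚ) (MvPolynomial.homogeneousComponent n G))

end Pool.Agent.H12.TU
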