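import Mathlib

/-! # [H12 TU LIV] Liouville inequality with the sharp exponent, uniform in the polynomial (helper12)

`p` irreducible over `ℚ` of degree `n`, coefficients `≤ B`; `q ≠ 0` of degree `< n`, coefficients `≤ D`; then
`1 ≤ B^n (n (2B)^n D)^(n-1) |q(t)|` for every zero `t` of `p` (resultant of `p` and `q`). -/

namespace Pool.Agent.H12.TU

open Polynomial

theorem root_le (p : ℤ[X]) (hp : p ≠ 0) (B : ℝ) (hB : 1 ≤ B) (h : ∀ i, |(p.coeff i : ℝ)| ≤ B) (z : ℂ)
    (hz : aeval z p = 0) : ‖z‖ ≤ 2 * B := by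
  have hinj : Function.Injective (Int.castRingHom ℂ) := Int.cast_injective
  have hp' : p.map (Int.castRingHom ℂ) ≠ 0 := (Polynomial.map_ne_zero_iff hinj).2 hp
  have h1 : (p.map (Int.castRingHom ℂ)).IsRoot z := by
    rw [IsRoot.def, eval_map]
    exact hz
  have h2 := h1.norm_lt_cauchyBound hp'
  have h3 : ((p.map (Int.castRingHom ℂ)).cauchyBound : ℝ) ≤ B + 1 := by
    unfold cauchyBound
    push_cast
    refine add_le_add ?_ le_rfl
    have hl : (1 : ℝ) ≤ ‖(p.map (Int.castRingHom ℂ)).leadingCoeff‖ := by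
      rw [leadingCoeff_map_of_injective hinj, eq_intCast, Complex.norm_intCast]
      exact_mod_cast Int.one_le_abs (leadingCoeff_ne_zero.2 hp)
    rw [div_le_iff₀ (by linarith)]
    have h4 : ((Finset.range (p.map (Int.castRingHom ℂ)).natDegree).sup
        (fun i => ‖(p.map (Int.castRingHom ℂ)).coeff i‖₊) : NNReal) ≤ ⟨B, by linarith⟩ := by
      refine Finset.sup_le fun i _ => ?_
      rw [← NNReal.coe_le_coe]
      simp only [coe_nnnorm, coeff_map, eq_intCast, Complex.norm_intCast, NNReal.coe_mk]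
      exact h i
    have h5 : (((Finset.range (p.map (Int.castRingHom ℂ)).natDegree).sup
        (fun i => ‖(p.map (Int.castRingHom ℂ)).coeff i‖₊) : NNReal) : ℝ) ≤ B := by exact_mod_cast h4
    nlinarith
  have h6 : ‖z‖ < ((p.map (Int.castRingHom ℂ)).cauchyBound : ℝ) := by exact_mod_cast h2
  linarith

theorem eval_le (q : ℤ[X]) (n : ℕ) (hq : q.natDegree < n) (B D : ℝ) (hB : 1 ≤ B) (hD : 0 ≤ D) (h : ∀ i, |(q.coeff i : ℝ)| ≤ D)
    (z : ℂ) (hz : ‖z‖ ≤ 2 * B) : ‖aeval z q‖ ≤ n * (2 * B) ^ n * D := by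
  rw [aeval_eq_sum_range' hq]
  refine (norm_sum_le _ _).trans ?_
  have h1 : ∀ i ∈ Finset.range n, ‖q.coeff i • z ^ i‖ ≤ (2 * B) ^ n * D := by
    intro i hi
    rw [zsmul_eq_mul, norm_mul, norm_pow, Complex.norm_intCast]
    have h2 : ‖z‖ ^ i ≤ (2 * B) ^ n :=
      (pow_le_pow_left₀ (norm_nonneg _) hz i).trans (pow_le_pow_right₀ (by linarith) (Finset.mem_range.1 hi).le)
    calc |((q.coeff i : ℤ) : ℝ)| * ‖z‖ ^ i ≤ D * (2 * B) ^ n := mul_le_mul (h i) h2 (by positivity) hD
      _ = _ := mul_comm _ _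
  refine (Finset.sum_le_card_nsmul _ _ _ h1).trans (le_of_eq ?_)
  rw [Finset.card_range, nsmul_eq_mul]
  ring

theorem liv (n : ℕ) (p q : ℤ[X]) (B D : ℝ) (hB : 1 ≤ B) (hD : 0 ≤ D) (hp : p.natDegree = n)
    (hi : Irreducible (p.map (Int.castRingHom ℚ))) (hpB : ∀ i, |(p.coeff i : ℝ)| ≤ B) (hq0 : q ≠ 0) (hq : q.natDegree < n)
    (hqD : ∀ i, |(q.coeff i : ℝ)| ≤ D) (t : ℂ) (ht : aeval t p = 0) :
    1 ≤ B ^ n * (n * (2 * B) ^ n * D) ^ (n - 1) * ‖aeval t q‖ := by
  classical
  have hp0 : p ≠ 0 := by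
    rintro rfl
    simp at hi
  have hinjQ : Function.Injective (Int.castRingHom ℚ) := Int.cast_injective
  have hinj : Function.Injective (Int.castRingHom ℂ) := Int.cast_injective
  obtain ⟨P, hP⟩ : ∃ P : ℂ[X], P = p.map (Int.castRingHom ℂ) := ⟨_, rfl⟩
  obtain ⟨Q, hQ⟩ : ∃ Q : ℂ[X], Q = q.map (Int.castRingHom ℂ) := ⟨_, rfl⟩
  have hP0 : P ≠ 0 := by rw [hP]; exact (Polynomial.map_ne_zero_iff hinj).2 hp0
  have hPd : P.natDegree = n := by rw [hP, natDegree_map_eq_of_injective hinj, hp]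
  -- the resultant
  have hr : resultant p q p.natDegree q.natDegree ≠ 0 := by
    intro h0
    have h1 : resultant (p.map (Int.castRingHom ℚ)) (q.map (Int.castRingHom ℚ)) p.natDegree q.natDegree = 0 := by
      rw [resultant_map_map, h0, map_zero]
    have h2 : resultant (p.map (Int.castRingHom ℚ)) (q.map (Int.castRingHom ℚ)) = 0 := by
      rw [natDegree_map_eq_of_injective hinjQ, natDegree_map_eq_of_injective hinjQ]
      exact h1
    rw [resultant_eq_zero_iff] at h2
    apply h2.2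
    rw [hi.coprime_iff_not_dvd]
    intro hdvd
    have hq' : q.map (Int.castRingHom ℚ) ≠ 0 := (Polynomial.map_ne_zero_iff hinjQ).2 hq0
    have := natDegree_le_of_dvd hdvd hq'
    rw [natDegree_map_eq_of_injective hinjQ, natDegree_map_eq_of_injective hinjQ] at this
    omega
  have h1 : (1 : ℝ) ≤ ‖((resultant p q p.natDegree q.natDegree : ℤ) : ℂ)‖ := by
    rw [Complex.norm_intCast]
    exact_mod_cast Int.one_le_abs hr
  have h2 : ((resultant p q p.natDegree q.natDegree : ℤ) : ℂ) = P.leadingCoeff ^ q.natDegree * (P.roots.map Q.eval).prod := by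
    have h3 := resultant_eq_prod_eval P Q q.natDegree (by rw [hQ]; exact natDegree_map_le) (IsAlgClosed.splits P)
    rw [← h3, hPd, ← hp, hP, hQ, resultant_map_map]
    rfl
  have htr : t ∈ P.roots := by
    rw [mem_roots hP0, IsRoot.def, hP, eval_map]
    exact ht
  have h3 : (P.roots.map Q.eval).prod = Q.eval t * ((P.roots.erase t).map Q.eval).prod := by
    conv_lhs => rw [← Multiset.cons_erase htr]
    rw [Multiset.map_cons, Multiset.prod_cons]
  have hQt : Q.eval t = aeval t q := by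
    rw [hQ, eval_map]
    rfl
  have hroot : ∀ z ∈ P.roots, ‖Q.eval z‖ ≤ n * (2 * B) ^ n * D := by
    intro z hz
    rw [mem_roots hP0, IsRoot.def, hP, eval_map] at hz
    have h4 : aeval z p = 0 := hz
    have h5 := eval_le q n hq B D hB hD hqD z (root_le p hp0 B hB hpB z h4)
    have h6 : Q.eval z = aeval z q := by
      rw [hQ, eval_map]
      rfl
    rw [h6]
    exact h5
  have hM : ∀ s : Multiset ℂ, (∀ z ∈ s, ‖Q.eval z‖ ≤ n * (2 * B) ^ n * D) →
      ‖(s.map Q.eval).prod‖ ≤ (n * (2 * B) ^ n * D) ^ (Multiset.card s) := by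
    intro s
    induction s using Multiset.induction_on with
    | empty => simp
    | cons a s ih =>
      intro hs
      rw [Multiset.map_cons, Multiset.prod_cons, norm_mul, Multiset.card_cons, pow_succ']
      exact mul_le_mul (hs a (Multiset.mem_cons_self _ _)) (ih fun z hz => hs z (Multiset.mem_cons_of_mem hz))
        (norm_nonneg _) (by positivity)
  have hcard : Multiset.card (P.roots.erase t) = n - 1 := by
    rw [Multiset.card_erase_of_mem htr, ← hPd, (IsAlgClosed.splits P).natDegree_eq_card_roots]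
    rfl
  have h4 := hM (P.roots.erase t) fun z hz => hroot z (Multiset.mem_of_mem_erase hz)
  rw [hcard] at h4
  have hl : ‖P.leadingCoeff‖ ^ q.natDegree ≤ B ^ n := by
    have h5 : ‖P.leadingCoeff‖ ≤ B := by
      rw [hP, leadingCoeff_map_of_injective hinj, eq_intCast, Complex.norm_intCast]
      exact hpB _
    exact (pow_le_pow_left₀ (norm_nonneg _) h5 _).trans (pow_le_pow_right₀ hB hq.le)
  rw [h2, h3, hQt, norm_mul, norm_mul, norm_pow] at h1
  calc (1 : ℝ) ≤ ‖P.leadingCoeff‖ ^ q.natDegree * (‖aeval t q‖ * ‖((P.roots.erase t).map Q.eval).prod‖) := h1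
    _ ≤ B ^ n * (‖aeval t q‖ * (n * (2 * B) ^ n * D) ^ (n - 1)) :=
        mul_le_mul hl (mul_le_mul_of_nonneg_left h4 (norm_nonneg _)) (by positivity) (by positivity)
    _ = _ := by ring

end Pool.Agent.H12.TU
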