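import Pool.Agent.H4.SF.ALC
import Pool.Agent.H85.LK.Inr
import Pool.Agent.H88.TS.Near
import Pool.Agent.H88.A2.Gd

/-! # [H12 TU POB] The integer zeros of all `F` with a given irreducible leading form are bounded by a power of the height (helper12)

`f(1,T)` has a real zero `θ`: `allC` for `ℚ(θ)` (one of finitely many numbers `M` otherwise: they are bounded by a constant). No real zero: `near`. -/

namespace Pool.Agent.H12.TU

open MvPolynomial Pool.Agent.H8.AA Pool.Agent.H88.A2

theorem ftop_eq (n : ℕ) (F : MvPolynomial (Fin 2) ℤ) : Pool.Agent.H12.ON.ftop n F = fm (ar F) n := rfl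

theorem fm_hc {n : ℕ} {F G : MvPolynomial (Fin 2) ℤ} (h : homogeneousComponent n F = homogeneousComponent n G) :
    ∀ a b, a + b = n → ar F a b = ar G a b := by
  intro a b hab
  have h1 := congrArg (fun p => coeff (Finsupp.single 0 a + Finsupp.single 1 b) p) h
  simp only [coeff_homogeneousComponent] at h1
  have h2 : (Finsupp.single (0 : Fin 2) a + Finsupp.single 1 b : Fin 2 →₀ ℕ).degree = n := by
    rw [map_add, Finsupp.degree_single, Finsupp.degree_single, hab]
  rw [if_pos h2, if_pos h2] at h1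
  exact h1

theorem pob (n : ℕ) (hn : 3 ≤ n) (G : MvPolynomial (Fin 2) ℤ) (hG : G.totalDegree ≤ n)
    (hl : Irreducible (map (Int.castRingHom ℚ) (homogeneousComponent n G))) :
    ∃ E C : ℕ, ∀ F : MvPolynomial (Fin 2) ℤ, F.totalDegree ≤ n → homogeneousComponent n F = homogeneousComponent n G →
      ∀ H : ℕ, 2 ≤ H → (∀ m, |F.coeff m| ≤ (H : ℤ)) → ∀ P : Fin 2 → ℤ, eval P F = 0 →
      max |P 0| |P 1| ≤ max ((H : ℤ) ^ E) (C : ℤ) := by
  classical
  by_cases hθ : ∃ θ : ℝ, Polynomial.aeval θ (Pool.Agent.H12.ON.ftop n G) = 0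
  · obtain ⟨θ, hθ⟩ := hθ
    obtain ⟨hnf, hfr⟩ := Pool.Agent.H85.LK.inr_nf hn hl hθ
    obtain ⟨S, _, hS⟩ := Pool.Agent.H4.SF.allC n hn ↥(Subfield.closure {θ}) (by rw [hfr]; exact hn)
    refine ⟨2 ^ (2 * n ^ 2).factorial, (S.sup id) ^ (14000 * n ^ 8), ?_⟩
    intro F hF hFG H hH hFH P hP
    have hlF : Irreducible (map (Int.castRingHom ℚ) (homogeneousComponent n F)) := by rw [hFG]; exact hl
    have hθF : Polynomial.aeval θ (Pool.Agent.H12.ON.ftop n F) = 0 := by
      have h1 : Pool.Agent.H12.ON.ftop n F = Pool.Agent.H12.ON.ftop n G := by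
        rw [ftop_eq, ftop_eq]
        unfold fm
        refine Finset.sum_congr rfl fun j hj => ?_
        have hj' := Finset.mem_range.1 hj
        rw [fm_hc hFG (n - j) j (by omega)]
      rw [h1]
      exact hθ
    have hPe : ![P 0, P 1] = P := by
      funext i
      fin_cases i <;> rfl
    have h2 := hS F H hF (Pool.Agent.H85.LK.inr_irr hn hF hlF) (fun K _ _ hK X Y hXY => Pool.Agent.H85.LK.inr hn hF hlF hθF K hK X Y hXY)
      hH hFH (P 0) (P 1) (by rw [hPe]; exact hP)
    rcases h2 with h3 | ⟨M, hM, _, h3⟩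
    · exact h3.trans (le_max_left _ _)
    · refine h3.trans (le_trans ?_ (le_max_right _ _))
      push_cast
      have h4 : M ≤ S.sup id := Finset.le_sup (f := id) hM
      have h5 : M ^ (14000 * n ^ 8) ≤ (S.sup id) ^ (14000 * n ^ 8) := Nat.pow_le_pow_left h4 _
      exact_mod_cast h5
  · push Not at hθ
    have hn2 : 2 ≤ n := by omega
    -- a bound for the leading coefficients
    obtain ⟨B, hB1, hB⟩ : ∃ B : ℝ, 1 ≤ B ∧ ∀ a b, a + b = n → |(ar G a b : ℝ)| ≤ B := by
      refine ⟨1 + ∑ m ∈ G.support, |((G.coeff m : ℤ) : ℝ)|, ?_, ?_⟩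
      · have : 0 ≤ ∑ m ∈ G.support, |((G.coeff m : ℤ) : ℝ)| := Finset.sum_nonneg fun _ _ => abs_nonneg _
        linarith
      · intro a b _
        unfold ar
        by_cases hm : (Finsupp.single 0 a + Finsupp.single 1 b : Fin 2 →₀ ℕ) ∈ G.support
        · have h1 := Finset.single_le_sum (f := fun m => |((G.coeff m : ℤ) : ℝ)|) (fun _ _ => abs_nonneg _) hm
          linarith
        · rw [notMem_support_iff.1 hm]
          have : 0 ≤ ∑ m ∈ G.support, |((G.coeff m : ℤ) : ℝ)| := Finset.sum_nonneg fun _ _ => abs_nonneg _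
          simp only [Int.cast_zero, abs_zero]
          linarith
    obtain ⟨A₁, hA₁, hg1, hg2⟩ := gd_of hn2 hl B (by linarith)
    obtain ⟨A, C, hA, hC, hnear⟩ := Pool.Agent.H88.TS.near n hn2 B (B / A₁) hB1 (by positivity)
    -- no zero in the first chart
    have hz1 : ∀ t : ℝ, Polynomial.aeval t (fm (ar G) n) ≠ 0 := hθ
    have hnz := nz_of hn2 hl
    -- nor in the second one
    have hz2 : ∀ t : ℝ, Polynomial.aeval t (fm (sw (ar G)) n) ≠ 0 := by
      intro t ht
      have e1 : ∀ (e : ℕ → ℕ → ℤ) (s : ℝ), Polynomial.aeval s (fm e n) = ∑ j ∈ Finset.range (n + 1), (e (n - j) j : ℝ) * s ^ j := by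
        intro e s
        unfold fm
        rw [map_sum]
        refine Finset.sum_congr rfl fun j _ => ?_
        rw [Polynomial.aeval_monomial]
        simp
      by_cases ht0 : t = 0
      · rw [e1, ht0, Finset.sum_eq_single 0 (fun j _ hj => by rw [zero_pow hj, mul_zero])
          (fun h => absurd (Finset.mem_range.2 (Nat.succ_pos n)) h), pow_zero, mul_one, Nat.sub_zero] at ht
        have h1 := hnz 0 1 (Or.inr one_ne_zero)
        apply h1
        rw [Finset.sum_eq_single n (fun j hj hjn => by
            have := Finset.mem_range.1 hj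
            rw [zero_pow (by omega), zero_mul, mul_zero])
          (fun h => absurd (Finset.mem_range.2 (Nat.lt_succ_self n)) h)]
        have h2 : (sw (ar G) n 0 : ℤ) = 0 := by exact_mod_cast ht
        have h3 : ar G 0 n = 0 := h2
        rw [Nat.sub_self, h3, zero_mul]
      · apply hz1 t⁻¹
        rw [e1] at ht ⊢
        have h1 : ∑ j ∈ Finset.range (n + 1), (ar G (n - j) j : ℝ) * (t⁻¹) ^ j =
            (t⁻¹) ^ n * ∑ j ∈ Finset.range (n + 1), (sw (ar G) (n - j) j : ℝ) * t ^ j := by
          rw [Finset.mul_sum, ← Finset.sum_range_reflect]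
          refine Finset.sum_congr rfl fun j hj => ?_
          have hj' := Finset.mem_range.1 hj
          have h2 : n + 1 - 1 - j = n - j := by omega
          have h3 : n - (n - j) = j := by omega
          rw [h2, h3]
          have h4 : (t⁻¹) ^ n = (t⁻¹) ^ (n - j) * (t⁻¹) ^ j := by
            rw [← pow_add]
            congr 1
            omega
          rw [h4]
          have h5 : (t⁻¹) ^ j * t ^ j = 1 := by
            rw [← mul_pow, inv_mul_cancel₀ ht0, one_pow]
          unfold sw
          calc (ar G j (n - j) : ℝ) * (t⁻¹) ^ (n - j) = (ar G j (n - j) : ℝ) * (t⁻¹) ^ (n - j) * ((t⁻¹) ^ j * t ^ j) := by rw [h5, mul_one]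
            _ = _ := by ring
        rw [h1, ht, mul_zero]
    obtain ⟨D, hD⟩ := exists_nat_ge A
    refine ⟨2, D ^ 2, ?_⟩
    intro F hF hFG H hH hFH P hP
    have hH1 : (1 : ℝ) ≤ H := by exact_mod_cast (by omega : 1 ≤ H)
    have hbd : ∀ a b, |(ar F a b : ℝ)| ≤ (H : ℝ) := by
      intro a b
      have h1 := hFH (Finsupp.single 0 a + Finsupp.single 1 b)
      unfold ar
      exact_mod_cast h1
    have hBs : Bs n B H (ar F) := by
      intro a b hab
      rcases Nat.lt_or_ge (a + b) n with h | h
      · have h1 : (H : ℝ) ≤ (H : ℝ) ^ (n - a - b) := le_self_pow₀ hH1 (by omega)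
        calc |(ar F a b : ℝ)| ≤ (H : ℝ) := hbd a b
          _ ≤ (H : ℝ) ^ (n - a - b) := h1
          _ ≤ B * (H : ℝ) ^ (n - a - b) := le_mul_of_one_le_left (by positivity) hB1
      · have h1 : a + b = n := by omega
        have h2 : n - a - b = 0 := by omega
        rw [fm_hc hFG a b h1, h2, pow_zero, mul_one]
        exact hB a b h1
    have hBs2 : Bs n B H (sw (ar F)) := by
      intro a b hab
      have h1 := hBs b a (by omega)
      have h2 : n - a - b = n - b - a := by omega
      rw [h2]
      exact h1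
    have hgF1 : Gd n (B / A₁) (ar F) := gd_congr (fun a b hab => (fm_hc hFG a b hab).symm) hg1
    have hgF2 : Gd n (B / A₁) (sw (ar F)) := gd_congr (fun a b hab => (fm_hc hFG b a (by omega)).symm) hg2
    have hfm1 : fm (ar F) n = fm (ar G) n := by
      unfold fm
      refine Finset.sum_congr rfl fun j hj => ?_
      have hj' := Finset.mem_range.1 hj
      rw [fm_hc hFG (n - j) j (by omega)]
    have hfm2 : fm (sw (ar F)) n = fm (sw (ar G)) n := by
      unfold fm sw
      refine Finset.sum_congr rfl fun j hj => ?_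
      have hj' := Finset.mem_range.1 hj
      rw [fm_hc hFG j (n - j) (by omega)]
    have hev : ev n (ar F) (P 0) (P 1) = 0 := by rw [ar_ev hF]; exact hP
    have hev2 : ev n (sw (ar F)) (P 1) (P 0) = 0 := by rw [ev_sw]; exact hev
    have key : ∀ x : ℤ, |(x : ℝ)| < A * H → |x| ≤ max ((H : ℤ) ^ 2) ((D ^ 2 : ℕ) : ℤ) := by
      intro x hx
      have h1 : |(x : ℝ)| ≤ (D : ℝ) * H := hx.le.trans (mul_le_mul_of_nonneg_right hD (by positivity))
      have h2 : |x| ≤ (D : ℤ) * H := by
        rw [← Int.cast_abs] at h1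
        exact_mod_cast h1
      refine h2.trans ?_
      push_cast
      rcases le_total D H with h3 | h3
      · refine le_trans ?_ (le_max_left _ _)
        have h4 : (D : ℤ) ≤ H := by exact_mod_cast h3
        nlinarith
      · refine le_trans ?_ (le_max_right _ _)
        have h4 : (H : ℤ) ≤ D := by exact_mod_cast h3
        nlinarith
    rcases le_total |P 1| |P 0| with h1 | h1
    · rw [max_eq_left h1]
      by_contra hcon
      apply hcon
      apply key
      by_contra h2
      rw [not_lt] at h2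
      obtain ⟨t, ht, _⟩ := hnear (ar F) H hH1 hBs hgF1 (P 0) (P 1) h1 h2 hev
      rw [hfm1] at ht
      exact hz1 t ht
    · rw [max_eq_right h1]
      by_contra hcon
      apply hcon
      apply key
      by_contra h2
      rw [not_lt] at h2
      obtain ⟨t, ht, _⟩ := hnear (sw (ar F)) H hH1 hBs2 hgF2 (P 1) (P 0) h1 h2 hev2
      rw [hfm2] at ht
      exact hz2 t ht

end Pool.Agent.H12.TU
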