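import Pool.Agent.H12.TU.Mij4
import Pool.Agent.H12.TU.Pob
import Pool.Agent.H88.TS.Asm

/-! # [H12 TU ASM4] Theorem TS for all `n ≥ 4` and every fixed part with irreducible leading form (helper12)

`big4`: from `pob` (no point of size `> (B H)^(E+1)` once `H` is larger than a constant). `tail4`, `vec4`, `main4`: helper88's `TS.tail`, `TS.vec`, `TS.main` with `Hy4` for `Hy`, `mij4` for `mij`, `big4` for `big`. -/

namespace Pool.Agent.H12.TU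

open MvPolynomial Pool.Agent.H8.AA Pool.Agent.H88.A2 Pool.Agent.H88.TS
open Pool.Agent.H15.SC (Pts msz mem_Pts kaps)

theorem big4 (n j : ℕ) (G : MvPolynomial (Fin 2) ℤ) (h : Hy4 n j G) : ∃ E : ℕ, ∀ B : ℕ, 2 ≤ B →
    (∀ m, |G.coeff m| + 1 ≤ (B : ℤ)) → ∃ C : ℝ, 0 ≤ C ∧ ∀ H : ℕ, 1 ≤ H → ∀ T : Finset (Ix j → ℤ),
    (∀ c ∈ T, (∀ p, |c p| ≤ (H : ℤ)) ∧ ∃ P : Fin 2 → ℤ, eval P (G + pol c) = 0 ∧
      ((B * H : ℕ) : ℝ) ^ E < max |(P 0 : ℝ)| |(P 1 : ℝ)|) →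
    (T.card : ℝ) ≤ C * (2 * (H : ℝ) + 1) ^ (Fintype.card (Ix j) - 1) * (H : ℝ) ^ (-(1 / 2) : ℝ) := by
  classical
  obtain ⟨E, C, hp⟩ := pob n (by have := h.hn; omega) G h.deg h.irr
  refine ⟨E + 1, fun B hB hGB => ⟨(2 * (C : ℝ) + 1) * (C + 1), by positivity, fun H hH T hT => ?_⟩⟩
  have hH' : (1 : ℝ) ≤ (H : ℝ) := by exact_mod_cast hH
  have hH0 : (0 : ℝ) < (H : ℝ) := by linarith
  have hu0 : 0 ≤ (H : ℝ) ^ (-(1 / 2) : ℝ) := Real.rpow_nonneg hH0.le _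
  rcases T.eq_empty_or_nonempty with h0 | ⟨c, hc⟩
  · rw [h0, Finset.card_empty]
    push_cast
    positivity
  -- `H ≤ C`
  have hHC : H ≤ C := by
    obtain ⟨hcb, P, hP, hPb⟩ := hT c hc
    have hBH : 2 ≤ B * H := by nlinarith
    have hdeg : (G + pol c).totalDegree ≤ n :=
      (totalDegree_add _ _).trans (max_le h.deg ((Pool.Agent.H8.AA.pol_deg c).trans h.hjn.le))
    have hhom : homogeneousComponent n (G + pol c) = homogeneousComponent n G := by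
      rw [map_add, homogeneousComponent_eq_zero n (pol c) (lt_of_le_of_lt (Pool.Agent.H8.AA.pol_deg c) h.hjn), add_zero]
    have hco : ∀ m, |(G + pol c).coeff m| ≤ ((B * H : ℕ) : ℤ) := by
      intro m
      rw [coeff_add, pol_coeff]
      have h1 := hGB m
      have h2 : |co c (m 0) (m 1)| ≤ (H : ℤ) := by
        unfold co
        split_ifs with hq
        · exact hcb _
        · simp
      have h3 := abs_add_le (coeff m G) (co c (m 0) (m 1))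
      have h4 : (1 : ℤ) ≤ H := by exact_mod_cast hH
      have h5 : (2 : ℤ) ≤ B := by exact_mod_cast hB
      push_cast
      nlinarith
    have h1 := hp (G + pol c) hdeg hhom (B * H) hBH hco P hP
    have h2 : ((B * H : ℕ) : ℤ) ^ (E + 1) < max |P 0| |P 1| := by exact_mod_cast hPb
    have h3 : ((B * H : ℕ) : ℤ) ^ E ≤ ((B * H : ℕ) : ℤ) ^ (E + 1) := pow_le_pow_right₀ (by exact_mod_cast (by omega : 1 ≤ B * H)) (by omega)
    have h4 : ((B * H : ℕ) : ℤ) ^ (E + 1) < (C : ℤ) := by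
      rcases le_max_iff.1 (h2.le.trans h1) with h5 | h5
      · exfalso
        have h6 := lt_of_lt_of_le h2 h1
        rcases max_choice (((B * H : ℕ) : ℤ) ^ E) (C : ℤ) with h7 | h7
        · rw [h7] at h6
          linarith
        · rw [h7] at h6
          have h8 : (C : ℤ) ≤ ((B * H : ℕ) : ℤ) ^ E := by
            have := le_max_left (((B * H : ℕ) : ℤ) ^ E) (C : ℤ)
            by_contra hcon
            push Not at hcon
            have h9 : ((B * H : ℕ) : ℤ) ^ (E + 1) = ((B * H : ℕ) : ℤ) ^ E := le_antisymm h5 h3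
            have h10 : ((B * H : ℕ) : ℤ) ^ (E + 1) = ((B * H : ℕ) : ℤ) ^ E * ((B * H : ℕ) : ℤ) := pow_succ _ _
            have h11 : (2 : ℤ) ≤ ((B * H : ℕ) : ℤ) := by exact_mod_cast hBH
            have h12 : (0 : ℤ) < ((B * H : ℕ) : ℤ) ^ E := by positivity
            nlinarith
          linarith
      · have h6 := lt_of_lt_of_le h2 h1
        rcases le_total (((B * H : ℕ) : ℤ) ^ E) (C : ℤ) with h7 | h7
        · rw [max_eq_right h7] at h6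
          exact h6
        · rw [max_eq_left h7] at h6
          linarith
    have h5 : ((B * H : ℕ) : ℤ) ≤ ((B * H : ℕ) : ℤ) ^ (E + 1) :=
      le_self_pow₀ (by exact_mod_cast (by omega : 1 ≤ B * H)) (by omega)
    have h6 : ((B * H : ℕ) : ℤ) ≤ (C : ℤ) := by linarith
    have h7 : B * H ≤ C := by exact_mod_cast h6
    exact (Nat.le_mul_of_pos_left H (by omega)).trans h7
  have hHC' : (H : ℝ) ≤ C := by exact_mod_cast hHC
  have hcard : (T.card : ℝ) ≤ (2 * (H : ℝ) + 1) ^ Fintype.card (Ix j) := by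
    have h1 : T ⊆ box j H := by
      intro c hc
      rw [mem_box]
      exact (hT c hc).1
    have h2 := Finset.card_le_card h1
    rw [card_box, ← card_ix] at h2
    exact_mod_cast h2
  have hM : 1 ≤ Fintype.card (Ix j) := Fintype.card_pos_iff.2 ⟨ix 0 0 (by omega)⟩
  have hp1 : (2 * (H : ℝ) + 1) ^ Fintype.card (Ix j) = (2 * (H : ℝ) + 1) * (2 * (H : ℝ) + 1) ^ (Fintype.card (Ix j) - 1) := by
    rw [← pow_succ']
    congr 1
    omega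
  have hu : 1 ≤ ((C : ℝ) + 1) * (H : ℝ) ^ (-(1 / 2) : ℝ) := by
    have h1 : (H : ℝ) ^ (-1 : ℝ) ≤ (H : ℝ) ^ (-(1 / 2) : ℝ) := Real.rpow_le_rpow_of_exponent_le hH' (by norm_num)
    rw [Real.rpow_neg_one] at h1
    have h2 : (1 : ℝ) ≤ ((C : ℝ) + 1) * (H : ℝ)⁻¹ := by
      rw [← div_eq_mul_inv, le_div_iff₀ hH0]
      linarith
    have h3 : ((C : ℝ) + 1) * (H : ℝ)⁻¹ ≤ ((C : ℝ) + 1) * (H : ℝ) ^ (-(1 / 2) : ℝ) := mul_le_mul_of_nonneg_left h1 (by positivity)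
    linarith
  have hV0 : 0 ≤ (2 * (H : ℝ) + 1) ^ (Fintype.card (Ix j) - 1) := by positivity
  calc (T.card : ℝ) ≤ (2 * (H : ℝ) + 1) * (2 * (H : ℝ) + 1) ^ (Fintype.card (Ix j) - 1) := by rw [← hp1]; exact hcard
    _ ≤ (2 * (C : ℝ) + 1) * (2 * (H : ℝ) + 1) ^ (Fintype.card (Ix j) - 1) * 1 := by
        rw [mul_one]
        exact mul_le_mul_of_nonneg_right (by linarith) hV0
    _ ≤ (2 * (C : ℝ) + 1) * (2 * (H : ℝ) + 1) ^ (Fintype.card (Ix j) - 1) * (((C : ℝ) + 1) * (H : ℝ) ^ (-(1 / 2) : ℝ)) :=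
        mul_le_mul_of_nonneg_left hu (by positivity)
    _ = _ := by ring

theorem tail4 (n j : ℕ) (G : MvPolynomial (Fin 2) ℤ) (h : Hy4 n j G) : ∃ C : ℝ, 0 ≤ C ∧ ∀ H : ℕ, 1 ≤ H → ∀ R : ℝ, 1 ≤ R →
    ∀ T : Finset (Ix j → ℤ), (∀ c ∈ T, (∀ p, |c p| ≤ (H : ℤ)) ∧ ∃ P : Fin 2 → ℤ, eval P (G + pol c) = 0 ∧
      R ≤ max |(P 0 : ℝ)| |(P 1 : ℝ)|) →
    (T.card : ℝ) ≤ C * (2 * (H : ℝ) + 1) ^ (Fintype.card (Ix j) - 1) * (1 / R ^ (j - 2) + (H : ℝ) ^ (-(1 / 2) : ℝ)) := by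
  classical
  obtain ⟨B, hB, hGB⟩ := exists_bound G
  obtain ⟨E, hE⟩ := big4 n j G h
  obtain ⟨C3, hC3, hbig⟩ := hE B hB hGB
  obtain ⟨A, C2, hA, hC2, hmid⟩ := mij4 n j G h B E hB hGB
  obtain ⟨C1, hC1, hlow⟩ := low j h.hj A hA
  refine ⟨C1 + C2 + C3, by positivity, ?_⟩
  intro H hH R hR T hT
  have hH' : (1 : ℝ) ≤ (H : ℝ) := by exact_mod_cast hH
  have hH0 : (0 : ℝ) < (H : ℝ) := by linarith
  obtain ⟨T1, hT1⟩ : ∃ T1 : Finset (Ix j → ℤ), T1 = T.filter (fun c => ∃ P : Fin 2 → ℤ, eval P (G + pol c) = 0 ∧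
      R ≤ max |(P 0 : ℝ)| |(P 1 : ℝ)| ∧ max |(P 0 : ℝ)| |(P 1 : ℝ)| ≤ A * H) := ⟨_, rfl⟩
  obtain ⟨T2, hT2⟩ : ∃ T2 : Finset (Ix j → ℤ), T2 = T.filter (fun c => ∃ P : Fin 2 → ℤ, eval P (G + pol c) = 0 ∧
      A * H ≤ max |(P 0 : ℝ)| |(P 1 : ℝ)| ∧ max |(P 0 : ℝ)| |(P 1 : ℝ)| ≤ ((B * H : ℕ) : ℝ) ^ E) := ⟨_, rfl⟩
  obtain ⟨T3, hT3⟩ : ∃ T3 : Finset (Ix j → ℤ), T3 = T.filter (fun c => ∃ P : Fin 2 → ℤ, eval P (G + pol c) = 0 ∧
      ((B * H : ℕ) : ℝ) ^ E < max |(P 0 : ℝ)| |(P 1 : ℝ)|) := ⟨_, rfl⟩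
  have hsub : T ⊆ T1 ∪ T2 ∪ T3 := by
    intro c hc
    obtain ⟨P, hP, hPR⟩ := (hT c hc).2
    rw [Finset.mem_union, Finset.mem_union, hT1, hT2, hT3, Finset.mem_filter, Finset.mem_filter, Finset.mem_filter]
    rcases le_or_gt (max |(P 0 : ℝ)| |(P 1 : ℝ)|) (A * H) with h1 | h1
    · exact Or.inl (Or.inl ⟨hc, P, hP, hPR, h1⟩)
    rcases le_or_gt (max |(P 0 : ℝ)| |(P 1 : ℝ)|) (((B * H : ℕ) : ℝ) ^ E) with h2 | h2
    · exact Or.inl (Or.inr ⟨hc, P, hP, h1.le, h2⟩)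
    · exact Or.inr ⟨hc, P, hP, h2⟩
  have hcT : (T.card : ℝ) ≤ (T1.card : ℝ) + T2.card + T3.card := by
    have h1 := Finset.card_le_card hsub
    have h2 := Finset.card_union_le (T1 ∪ T2) T3
    have h3 := Finset.card_union_le T1 T2
    have h4 : T.card ≤ T1.card + T2.card + T3.card := by omega
    exact_mod_cast h4
  obtain ⟨M, hM⟩ : ∃ M : ℕ, M = Fintype.card (Ix j) := ⟨_, rfl⟩
  have hM3 : 3 ≤ M := by
    rw [hM, card_ix]
    have hj := h.hj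
    have : 2 * 3 ≤ (j + 1) * (j + 2) := Nat.mul_le_mul (by omega) (by omega)
    omega
  obtain ⟨V, hV⟩ : ∃ V : ℝ, V = (2 * (H : ℝ) + 1) ^ (M - 1) := ⟨_, rfl⟩
  have hV0 : 0 ≤ V := by rw [hV]; positivity
  obtain ⟨u, hu⟩ : ∃ u : ℝ, u = (H : ℝ) ^ (-(1 / 2) : ℝ) := ⟨_, rfl⟩
  have hu0 : 0 ≤ u := by rw [hu]; positivity
  have hR0 : 0 ≤ 1 / R ^ (j - 2) := by positivity
  have hc1 : (T1.card : ℝ) ≤ C1 * V * (1 / R ^ (j - 2)) := by
    have h1 := hlow H hH R hR (fun x y => eval ![x, y] G) T1 (by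
      intro c hc
      rw [hT1, Finset.mem_filter] at hc
      obtain ⟨hc1, P, hP, hP1, hP2⟩ := hc
      refine ⟨(hT c hc1).1, P 0, P 1, hP1, hP2, ?_⟩
      show eval ![P 0, P 1] G + ev j (co c) (P 0) (P 1) = 0
      rw [vec2, ← pol_eval, ← map_add]
      exact hP)
    rw [← hM, ← hV, div_eq_mul_one_div] at h1
    exact h1
  have hc2 : (T2.card : ℝ) ≤ C2 * V * u := by
    have h1 := hmid H hH T2 (by
      intro c hc
      rw [hT2, Finset.mem_filter] at hc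
      exact ⟨(hT c hc.1).1, hc.2⟩)
    rw [← hM, ← hV, ← hu] at h1
    exact h1
  have hc3 : (T3.card : ℝ) ≤ C3 * V * u := by
    have h1 := hbig H hH T3 (by
      intro c hc
      rw [hT3, Finset.mem_filter] at hc
      exact ⟨(hT c hc.1).1, hc.2⟩)
    rw [← hM, ← hV, ← hu] at h1
    exact h1
  rw [← hM, ← hV, ← hu]
  calc (T.card : ℝ) ≤ C1 * V * (1 / R ^ (j - 2)) + C2 * V * u + C3 * V * u := by linarith
    _ ≤ (C1 + C2 + C3) * V * (1 / R ^ (j - 2) + u) := by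
        have h1 : 0 ≤ C1 * V * u := by positivity
        have h2 : 0 ≤ (C2 + C3) * V * (1 / R ^ (j - 2)) := by positivity
        nlinarith

open Classical in
theorem vec4 (n j : ℕ) (G : MvPolynomial (Fin 2) ℤ) (h : Hy4 n j G) : ∃ C : ℝ, 0 ≤ C ∧ ∀ H : ℕ, 1 ≤ H →
    (∀ Z : Finset (Ix j → ℤ), (∀ c, c ∈ Z ↔ c ∈ box j H ∧ ∃ P : Fin 2 → ℤ, eval P (G + pol c) = 0) →
      |(Z.card : ℝ) - kaps j * (2 * (H : ℝ) + 1) ^ (Fintype.card (Ix j) - 1)| ≤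
      C * (H : ℝ) ^ (-dl n) * (2 * (H : ℝ) + 1) ^ (Fintype.card (Ix j) - 1)) ∧
    (∀ Y : Finset (Ix j → ℤ), (∀ c, c ∈ Y ↔ c ∈ box j H ∧ ∃ P Q : Fin 2 → ℤ, P ≠ Q ∧ eval P (G + pol c) = 0 ∧
      eval Q (G + pol c) = 0) →
      (Y.card : ℝ) ≤ C * (H : ℝ) ^ (-dl n) * (2 * (H : ℝ) + 1) ^ (Fintype.card (Ix j) - 1)) := by
  obtain ⟨Ct, hCt, htail⟩ := tail4 n j G h
  obtain ⟨Cs, hCs, hsma⟩ := sma j h.hj
  obtain ⟨D, hD, hval⟩ := val_le h.deg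
  refine ⟨Cs * (D + 3) + 2 * Ct, by positivity, ?_⟩
  intro H hH
  have hH' : (1 : ℝ) ≤ (H : ℝ) := by exact_mod_cast hH
  have hH0 : (0 : ℝ) < (H : ℝ) := by linarith
  obtain ⟨u, hu⟩ : ∃ u : ℝ, u = (H : ℝ) ^ (-dl n) := ⟨_, rfl⟩
  have hu0 : 0 < u := by rw [hu]; positivity
  obtain ⟨q, hq⟩ : ∃ q : ℝ, q = (H : ℝ) ^ dl n := ⟨_, rfl⟩
  have hq1 : 1 ≤ q := by rw [hq]; exact Real.one_le_rpow hH' (dl_pos n).le
  have huq : u * q = 1 := by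
    rw [hu, hq, ← Real.rpow_add hH0]
    simp
  obtain ⟨R, hRdef⟩ : ∃ R : ℕ, R = ⌊q⌋₊ := ⟨_, rfl⟩
  have hR1 : 1 ≤ R := by
    rw [hRdef, Nat.one_le_floor_iff]
    exact hq1
  have hRq : (R : ℝ) ≤ q := by
    rw [hRdef]
    exact Nat.floor_le (by linarith)
  have hqR : q < (R : ℝ) + 1 := by
    rw [hRdef]
    exact Nat.lt_floor_add_one _
  have hR1' : (1 : ℝ) ≤ R := by exact_mod_cast hR1
  have hj := h.hj
  have hjR : 1 / (R : ℝ) ^ (j - 2) ≤ 2 * u := by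
    have h1 : (R : ℝ) ^ 1 ≤ (R : ℝ) ^ (j - 2) := pow_le_pow_right₀ hR1' (by omega)
    rw [pow_one] at h1
    have h2 : 1 / (R : ℝ) ^ (j - 2) ≤ 1 / (R : ℝ) := one_div_le_one_div_of_le (by linarith) h1
    refine h2.trans ?_
    rw [div_le_iff₀ (by linarith)]
    nlinarith
  have hjR2 : 1 / ((R : ℝ) + 1) ^ (j - 2) ≤ u := by
    have h1 : ((R : ℝ) + 1) ^ 1 ≤ ((R : ℝ) + 1) ^ (j - 2) := pow_le_pow_right₀ (by linarith) (by omega)
    rw [pow_one] at h1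
    have h2 : 1 / ((R : ℝ) + 1) ^ (j - 2) ≤ 1 / ((R : ℝ) + 1) := one_div_le_one_div_of_le (by linarith) h1
    refine h2.trans ?_
    rw [div_le_iff₀ (by linarith)]
    nlinarith
  have hhalf : (H : ℝ) ^ (-(1 / 2) : ℝ) ≤ u := by
    rw [hu]
    exact Real.rpow_le_rpow_of_exponent_le hH' (by linarith [dl_half n])
  obtain ⟨V, hV⟩ : ∃ V : ℝ, V = (2 * (H : ℝ) + 1) ^ (Fintype.card (Ix j) - 1) := ⟨_, rfl⟩
  have hV0 : 0 ≤ V := by rw [hV]; positivity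
  obtain ⟨W, hW⟩ : ∃ W : ℝ, W = D * q ^ n := ⟨_, rfl⟩
  have hqn : 1 ≤ q ^ n := one_le_pow₀ hq1
  have hW1 : 1 ≤ W := by rw [hW]; nlinarith
  have hWe : (R : ℝ) ^ 4 * W / (2 * (H : ℝ) + 1) ≤ D * u := by
    rw [div_le_iff₀ (by linarith), hW]
    have h1 : (R : ℝ) ^ 4 ≤ q ^ 4 := by gcongr
    have h2 : q ^ 4 * q ^ n ≤ u * H := by
      rw [hq, hu, ← Real.rpow_natCast, ← Real.rpow_natCast, ← Real.rpow_mul hH0.le, ← Real.rpow_mul hH0.le,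
        ← Real.rpow_add hH0]
      have h3 : (H : ℝ) ^ (-dl n) * H = (H : ℝ) ^ (-dl n + 1) := by
        rw [Real.rpow_add hH0, Real.rpow_one]
      rw [h3]
      refine Real.rpow_le_rpow_of_exponent_le hH' ?_
      have h4 := dl_exp n (by have := h.hn; omega)
      push_cast
      nlinarith
    calc (R : ℝ) ^ 4 * (D * q ^ n) ≤ q ^ 4 * (D * q ^ n) := by gcongr
      _ = D * (q ^ 4 * q ^ n) := by ring
      _ ≤ D * (u * H) := by gcongr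
      _ ≤ D * u * (2 * H + 1) := by
          have : 0 ≤ D * u := by positivity
          nlinarith
  have hWe2 : (R : ℝ) ^ 4 / (2 * (H : ℝ) + 1) ≤ D * u := by
    refine le_trans ?_ hWe
    refine div_le_div_of_nonneg_right ?_ (by linarith)
    exact le_mul_of_one_le_right (by positivity) hW1
  obtain ⟨g, hg⟩ : ∃ g : ℤ × ℤ → ℤ, g = fun P => eval ![P.1, P.2] G := ⟨_, rfl⟩
  have hgW : ∀ P ∈ Pts R, |(g P : ℝ)| ≤ W := by
    intro P hP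
    rw [mem_Pts] at hP
    have h1 : |P.1| ≤ (R : ℤ) := (le_max_left _ _).trans hP
    have h2 : |P.2| ≤ (R : ℤ) := (le_max_right _ _).trans hP
    have h1' : |(P.1 : ℝ)| ≤ q := by
      have : |(P.1 : ℝ)| ≤ (R : ℝ) := by exact_mod_cast h1
      linarith
    have h2' : |(P.2 : ℝ)| ≤ q := by
      have : |(P.2 : ℝ)| ≤ (R : ℝ) := by exact_mod_cast h2
      linarith
    rw [hg, hW]
    exact hval ![P.1, P.2] q hq1 h1' h2'
  obtain ⟨hs1, hs2⟩ := hsma H R hH hR1 W g hW1 hgW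
  rw [← hV] at hs1 hs2
  have hge : ∀ (c : Ix j → ℤ) (P : ℤ × ℤ), g P + ev j (co c) P.1 P.2 = 0 ↔ eval ![P.1, P.2] (G + pol c) = 0 := by
    intro c P
    have h1 := pol_eval c ![P.1, P.2]
    have h2 : ev j (co c) (![P.1, P.2] 0) (![P.1, P.2] 1) = ev j (co c) P.1 P.2 := rfl
    rw [h2] at h1
    rw [map_add, h1, hg]
  -- the set outside
  obtain ⟨O, hO⟩ : ∃ O : Finset (Ix j → ℤ), O = (box j H).filter fun c => ∃ P : Fin 2 → ℤ, eval P (G + pol c) = 0 ∧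
    (R : ℝ) + 1 ≤ max |(P 0 : ℝ)| |(P 1 : ℝ)| := ⟨_, rfl⟩
  have hOc : (O.card : ℝ) ≤ 2 * Ct * u * V := by
    have h1 := htail H hH ((R : ℝ) + 1) (by linarith) O (by
      intro c hc
      rw [hO, Finset.mem_filter, mem_box] at hc
      exact hc)
    rw [← hV] at h1
    refine h1.trans ?_
    have h2 : 1 / ((R : ℝ) + 1) ^ (j - 2) + (H : ℝ) ^ (-(1 / 2) : ℝ) ≤ 2 * u := by linarith
    calc Ct * V * (1 / ((R : ℝ) + 1) ^ (j - 2) + (H : ℝ) ^ (-(1 / 2) : ℝ)) ≤ Ct * V * (2 * u) :=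
          mul_le_mul_of_nonneg_left h2 (by positivity)
      _ = _ := by ring
  have hout : ∀ P : Fin 2 → ℤ, (P 0, P 1) ∉ Pts R → (R : ℝ) + 1 ≤ max |(P 0 : ℝ)| |(P 1 : ℝ)| := by
    intro P hP
    rw [mem_Pts] at hP
    have h0 : msz (P 0, P 1) = max |P 0| |P 1| := rfl
    rw [h0] at hP
    have h1 : (R : ℤ) + 1 ≤ max |P 0| |P 1| := by omega
    exact_mod_cast h1
  obtain ⟨Z1, hZ1⟩ : ∃ Z1 : Finset (Ix j → ℤ), Z1 = (box j H).filter fun c => ∃ P ∈ Pts R, g P + ev j (co c) P.1 P.2 = 0 := ⟨_, rfl⟩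
  obtain ⟨Y1, hY1⟩ : ∃ Y1 : Finset (Ix j → ℤ), Y1 = (box j H).filter fun c => ∃ P ∈ Pts R, ∃ Q ∈ Pts R, P ≠ Q ∧
    g P + ev j (co c) P.1 P.2 = 0 ∧ g Q + ev j (co c) Q.1 Q.2 = 0 := ⟨_, rfl⟩
  rw [← hZ1] at hs1
  rw [← hY1] at hs2
  rw [← hu, ← hV]
  have k4 : Cs * V * ((R : ℝ) ^ 4 * W / (2 * (H : ℝ) + 1) + 1 / (R : ℝ) ^ (j - 2)) ≤ Cs * (D + 2) * u * V := by
    calc Cs * V * ((R : ℝ) ^ 4 * W / (2 * (H : ℝ) + 1) + 1 / (R : ℝ) ^ (j - 2)) ≤ Cs * V * (D * u + 2 * u) := by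
          refine mul_le_mul_of_nonneg_left ?_ (by positivity)
          linarith
      _ = _ := by ring
  have k5 : Cs * V * ((R : ℝ) ^ 4 / (2 * (H : ℝ) + 1)) ≤ Cs * D * u * V := by
    calc Cs * V * ((R : ℝ) ^ 4 / (2 * (H : ℝ) + 1)) ≤ Cs * V * (D * u) :=
          mul_le_mul_of_nonneg_left hWe2 (by positivity)
      _ = _ := by ring
  have k6 : 0 ≤ Cs * u * V := by positivity
  have k7 : (Cs * (D + 3) + 2 * Ct) * u * V = Cs * (D + 2) * u * V + Cs * u * V + 2 * Ct * u * V := by ring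
  have k8 : (Cs * (D + 3) + 2 * Ct) * u * V = Cs * D * u * V + 3 * (Cs * u * V) + 2 * Ct * u * V := by ring
  constructor
  · intro Z hZ
    have hZ1Z : Z1 ⊆ Z := by
      intro c hc
      rw [hZ1, Finset.mem_filter] at hc
      rw [hZ]
      obtain ⟨P, _, hP⟩ := hc.2
      exact ⟨hc.1, ![P.1, P.2], (hge c P).1 hP⟩
    have hZZ : Z ⊆ Z1 ∪ O := by
      intro c hc
      rw [hZ] at hc
      rw [Finset.mem_union, hZ1, hO, Finset.mem_filter, Finset.mem_filter]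
      obtain ⟨hb, P, hP⟩ := hc
      by_cases hPR : (P 0, P 1) ∈ Pts R
      · left
        refine ⟨hb, (P 0, P 1), hPR, (hge c (P 0, P 1)).2 ?_⟩
        show eval ![P 0, P 1] (G + pol c) = 0
        rw [vec2]
        exact hP
      · exact Or.inr ⟨hb, P, hP, hout P hPR⟩
    have k1 : (Z1.card : ℝ) ≤ Z.card := by exact_mod_cast Finset.card_le_card hZ1Z
    have k2 : (Z.card : ℝ) ≤ Z1.card + O.card := by
      exact_mod_cast (Finset.card_le_card hZZ).trans (Finset.card_union_le _ _)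
    rw [abs_le] at hs1 ⊢
    obtain ⟨h1, h2⟩ := hs1
    have h3 : 0 ≤ 2 * Ct * u * V := by positivity
    rw [k7]
    constructor
    · linarith
    · linarith
  · intro Y hY
    have hYY : Y ⊆ Y1 ∪ O := by
      intro c hc
      rw [hY] at hc
      rw [Finset.mem_union, hY1, hO, Finset.mem_filter, Finset.mem_filter]
      obtain ⟨hb, P, Q, hPQ, hP, hQ⟩ := hc
      by_cases hPR : (P 0, P 1) ∈ Pts R
      · by_cases hQR : (Q 0, Q 1) ∈ Pts R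
        · left
          refine ⟨hb, (P 0, P 1), hPR, (Q 0, Q 1), hQR, ?_, (hge c (P 0, P 1)).2 ?_, (hge c (Q 0, Q 1)).2 ?_⟩
          · intro hE
            apply hPQ
            funext i
            have h1 := congrArg Prod.fst hE
            have h2 := congrArg Prod.snd hE
            fin_cases i
            · exact h1
            · exact h2
          · show eval ![P 0, P 1] (G + pol c) = 0
            rw [vec2]
            exact hP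
          · show eval ![Q 0, Q 1] (G + pol c) = 0
            rw [vec2]
            exact hQ
        · exact Or.inr ⟨hb, Q, hQ, hout Q hQR⟩
      · exact Or.inr ⟨hb, P, hP, hout P hPR⟩
    have k3 : (Y.card : ℝ) ≤ Y1.card + O.card := by
      exact_mod_cast (Finset.card_le_card hYY).trans (Finset.card_union_le _ _)
    rw [k8]
    linarith

theorem main4 (n j : ℕ) (G : MvPolynomial (Fin 2) ℤ) (h : Hy4 n j G) : ∃ C : ℝ, ∀ H : ℕ, 1 ≤ H →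
    |((Set.ncard {L : MvPolynomial (Fin 2) ℤ | L.totalDegree ≤ j ∧ (∀ m, |L.coeff m| ≤ (H : ℤ)) ∧
        ∃ P : Fin 2 → ℤ, eval P (G + L) = 0} : ℕ) : ℝ) -
      kaps j * (2 * (H : ℝ) + 1) ^ ((j + 1) * (j + 2) / 2 - 1)| ≤
      C * (H : ℝ) ^ (-(1 / (2 * (n : ℝ) + 4))) * (2 * (H : ℝ) + 1) ^ ((j + 1) * (j + 2) / 2 - 1) ∧
    ((Set.ncard {L : MvPolynomial (Fin 2) ℤ | L.totalDegree ≤ j ∧ (∀ m, |L.coeff m| ≤ (H : ℤ)) ∧
        ∃ P Q : Fin 2 → ℤ, P ≠ Q ∧ eval P (G + L) = 0 ∧ eval Q (G + L) = 0} : ℕ) : ℝ) ≤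
      C * (H : ℝ) ^ (-(1 / (2 * (n : ℝ) + 4))) * (2 * (H : ℝ) + 1) ^ ((j + 1) * (j + 2) / 2 - 1) ∧
    ∀ T : ℕ, 1 ≤ T →
      ((Set.ncard {L : MvPolynomial (Fin 2) ℤ | L.totalDegree ≤ j ∧ (∀ m, |L.coeff m| ≤ (H : ℤ)) ∧
          ∃ P : Fin 2 → ℤ, (T : ℤ) < max |P 0| |P 1| ∧ eval P (G + L) = 0} : ℕ) : ℝ) ≤
        C * (1 / (T : ℝ) ^ (j - 2) + (H : ℝ) ^ (-(1 / (2 * (n : ℝ) + 4)))) *
          (2 * (H : ℝ) + 1) ^ ((j + 1) * (j + 2) / 2 - 1) := by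
  classical
  obtain ⟨C1, hC1, h1⟩ := vec4 n j G h
  obtain ⟨C2, hC2, h2⟩ := tail4 n j G h
  refine ⟨C1 + C2, fun H hH => ?_⟩
  have hH' : (1 : ℝ) ≤ (H : ℝ) := by exact_mod_cast hH
  have hH0 : (0 : ℝ) < (H : ℝ) := by linarith
  obtain ⟨hv1, hv2⟩ := h1 H hH
  have hdl : (1 : ℝ) / (2 * (n : ℝ) + 4) = dl n := rfl
  rw [hdl]
  rw [card_ix] at hv1 hv2
  obtain ⟨u, hu⟩ : ∃ u : ℝ, u = (H : ℝ) ^ (-dl n) := ⟨_, rfl⟩
  have hu0 : 0 ≤ u := by rw [hu]; positivity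
  obtain ⟨V, hV⟩ : ∃ V : ℝ, V = (2 * (H : ℝ) + 1) ^ ((j + 1) * (j + 2) / 2 - 1) := ⟨_, rfl⟩
  have hV0 : 0 ≤ V := by rw [hV]; positivity
  rw [← hu, ← hV] at hv1 hv2
  rw [← hu, ← hV]
  have hC2uV : 0 ≤ C2 * u * V := by positivity
  refine ⟨?_, ?_, ?_⟩
  · obtain ⟨Z, hZ⟩ : ∃ Z : Finset (Ix j → ℤ), ∀ c, c ∈ Z ↔ c ∈ box j H ∧ ∃ P : Fin 2 → ℤ, eval P (G + pol c) = 0 :=
      ⟨(box j H).filter fun c => ∃ P : Fin 2 → ℤ, eval P (G + pol c) = 0, fun c => by rw [Finset.mem_filter]⟩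
    rw [ncard_filter j H (fun L => ∃ P : Fin 2 → ℤ, eval P (G + L) = 0) Z hZ]
    have h3 := hv1 Z hZ
    have h4 : (C1 + C2) * u * V = C1 * u * V + C2 * u * V := by ring
    rw [h4]
    linarith
  · obtain ⟨Z, hZ⟩ : ∃ Z : Finset (Ix j → ℤ), ∀ c, c ∈ Z ↔ c ∈ box j H ∧
        ∃ P Q : Fin 2 → ℤ, P ≠ Q ∧ eval P (G + pol c) = 0 ∧ eval Q (G + pol c) = 0 :=
      ⟨(box j H).filter fun c => ∃ P Q : Fin 2 → ℤ, P ≠ Q ∧ eval P (G + pol c) = 0 ∧ eval Q (G + pol c) = 0,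
        fun c => by rw [Finset.mem_filter]⟩
    rw [ncard_filter j H (fun L => ∃ P Q : Fin 2 → ℤ, P ≠ Q ∧ eval P (G + L) = 0 ∧ eval Q (G + L) = 0) Z hZ]
    have h3 := hv2 Z hZ
    have h4 : (C1 + C2) * u * V = C1 * u * V + C2 * u * V := by ring
    rw [h4]
    linarith
  · intro T hT
    have hT' : (1 : ℝ) ≤ (T : ℝ) := by exact_mod_cast hT
    obtain ⟨Z, hZ⟩ : ∃ Z : Finset (Ix j → ℤ), Z = (box j H).filter fun c =>
      ∃ P : Fin 2 → ℤ, (T : ℤ) < max |P 0| |P 1| ∧ eval P (G + pol c) = 0 := ⟨_, rfl⟩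
    rw [ncard_filter j H (fun L => ∃ P : Fin 2 → ℤ, (T : ℤ) < max |P 0| |P 1| ∧ eval P (G + L) = 0) Z
      (fun c => by rw [hZ, Finset.mem_filter])]
    have h3 := h2 H hH (T : ℝ) hT' Z (by
      intro c hc
      rw [hZ, Finset.mem_filter, mem_box] at hc
      obtain ⟨hb, P, hP1, hP2⟩ := hc
      refine ⟨hb, P, hP2, ?_⟩
      have h4 : (T : ℤ) ≤ max |P 0| |P 1| := hP1.le
      exact_mod_cast h4)
    rw [card_ix, ← hV] at h3
    have hhalf : (H : ℝ) ^ (-(1 / 2) : ℝ) ≤ u := by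
      rw [hu]
      exact Real.rpow_le_rpow_of_exponent_le hH' (by linarith [dl_half n])
    have hT0 : 0 ≤ 1 / (T : ℝ) ^ (j - 2) := by positivity
    calc (Z.card : ℝ) ≤ C2 * V * (1 / (T : ℝ) ^ (j - 2) + (H : ℝ) ^ (-(1 / 2) : ℝ)) := h3
      _ ≤ C2 * V * (1 / (T : ℝ) ^ (j - 2) + u) := by gcongr
      _ = C2 * (1 / (T : ℝ) ^ (j - 2) + u) * V := by ring
      _ ≤ (C1 + C2) * (1 / (T : ℝ) ^ (j - 2) + u) * V := by
          refine mul_le_mul_of_nonneg_right (mul_le_mul_of_nonneg_right (by linarith) (by positivity)) hV0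

end Pool.Agent.H12.TU
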