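import Pool.Agent.H88.TS.Near
import Pool.Agent.H88.TS.Str
import Pool.Agent.H88.TS.Rot
import Pool.Agent.H88.A2.Gd

/-! # [H12 TU CHT] Points on the curves with fixed parts of degree `n`, `n - 1`, in one chart (helper12; copied from helper88's `TS.Mid`, there private) -/

namespace Pool.Agent.H12.TU

open MvPolynomial Pool.Agent.H8.AA Pool.Agent.H88.A2 Pool.Agent.H88.TS

theorem fm_cg' {n : ℕ} {e e' : ℕ → ℕ → ℤ} (h : ∀ a b, a + b = n → e a b = e' a b) : fm e n = fm e' n := by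
  unfold fm
  refine Finset.sum_congr rfl fun j hj => ?_
  have hj' : j ≤ n := by
    have := Finset.mem_range.1 hj
    omega
  rw [h (n - j) j (by omega)]

private theorem Kbd (E B : ℕ) (hB : 1 ≤ B) : ∃ C : ℝ, 0 ≤ C ∧ ∀ H : ℕ, 1 ≤ H →
    ((Nat.log 2 ((B * H) ^ E) + 1 : ℕ) : ℝ) ≤ C * (H : ℝ) ^ (1 / 2 : ℝ) := by
  refine ⟨4 * E * (B : ℝ) ^ (1 / 2 : ℝ) + 1, by positivity, ?_⟩
  intro H hH
  have hH1 : (1 : ℝ) ≤ H := by exact_mod_cast hH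
  have hHr : (1 : ℝ) ≤ (H : ℝ) ^ (1 / 2 : ℝ) := Real.one_le_rpow hH1 (by norm_num)
  have hBH : 0 < B * H := Nat.mul_pos hB hH
  have h1 : 2 ^ Nat.log 2 ((B * H) ^ E) ≤ (B * H) ^ E := Nat.pow_log_le_self 2 (by positivity)
  have h2 : (2 : ℝ) ^ Nat.log 2 ((B * H) ^ E) ≤ ((B * H : ℕ) : ℝ) ^ E := by exact_mod_cast h1
  have h3 := Real.log_le_log (by positivity) h2
  rw [Real.log_pow, Real.log_pow] at h3
  have h4 : Real.log ((B * H : ℕ) : ℝ) ≤ ((B * H : ℕ) : ℝ) ^ (1 / 2 : ℝ) / (1 / 2 : ℝ) :=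
    Real.log_le_rpow_div (by positivity) (by norm_num)
  have h5 : (((B * H : ℕ) : ℝ)) ^ (1 / 2 : ℝ) = (B : ℝ) ^ (1 / 2 : ℝ) * (H : ℝ) ^ (1 / 2 : ℝ) := by
    push_cast
    rw [Real.mul_rpow (by positivity) (by positivity)]
  have h6 := Real.log_two_gt_d9
  have hE : (0 : ℝ) ≤ E := by positivity
  have h7 : (E : ℝ) * Real.log ((B * H : ℕ) : ℝ) ≤ E * (2 * ((B : ℝ) ^ (1 / 2 : ℝ) * (H : ℝ) ^ (1 / 2 : ℝ))) := by
    refine mul_le_mul_of_nonneg_left ?_ hE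
    rw [h5] at h4
    linarith
  have h8 : ((Nat.log 2 ((B * H) ^ E) : ℕ) : ℝ) * (1 / 2) ≤ ((Nat.log 2 ((B * H) ^ E) : ℕ) : ℝ) * Real.log 2 := by
    refine mul_le_mul_of_nonneg_left ?_ (by positivity)
    linarith
  push_cast
  have h9 : (0 : ℝ) ≤ 4 * E * (B : ℝ) ^ (1 / 2 : ℝ) := by positivity
  nlinarith

private theorem cnt1 (Z : Finset ℝ) (Cs : ℝ → ℝ) (ε : ℝ) (hε0 : 0 < ε) (E B : ℕ) (hB : 1 ≤ B) (hε : E * ε ≤ 1) (hε1 : ε ≤ 1)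
    (C₁ : ℝ) (hC₁ : 0 ≤ C₁) (hCs : ∀ t ∈ Z, 0 ≤ Cs t)
    (hstr : ∀ t ∈ Z, ∀ s w X : ℝ, 1 ≤ X → 0 ≤ w → ∀ T : Finset (ℤ × ℤ),
      (∀ P ∈ T, |(P.1 : ℝ)| ≤ X ∧ |(P.2 : ℝ) - t * P.1 - s| ≤ w) → (T.card : ℝ) ≤ Cs t * (X ^ ε + w * X)) :
    ∃ C : ℝ, 0 ≤ C ∧ ∀ H : ℕ, 1 ≤ H → ∀ (s : ℝ → ℝ) (T : Finset (ℤ × ℤ)),
      (∀ P ∈ T, P.1 ≠ 0 ∧ |(P.1 : ℝ)| ≤ ((B * H : ℕ) : ℝ) ^ E ∧
        ∃ t ∈ Z, |(P.2 : ℝ) - t * P.1 - s t| ≤ C₁ * (H : ℝ) ^ 2 / |(P.1 : ℝ)|) →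
      (T.card : ℝ) ≤ C * (H : ℝ) ^ (5 / 2 : ℝ) := by
  classical
  obtain ⟨CK, hCK, hK⟩ := Kbd E B hB
  have hS0 : 0 ≤ ∑ t ∈ Z, Cs t := Finset.sum_nonneg hCs
  refine ⟨(∑ t ∈ Z, Cs t) * CK * (2 * B + 2 * C₁), by positivity, ?_⟩
  intro H hH s T hT
  have hH1 : (1 : ℝ) ≤ H := by exact_mod_cast hH
  have hB1 : (1 : ℝ) ≤ B := by exact_mod_cast hB
  have hBH : 0 < B * H := Nat.mul_pos hB hH
  set K := Nat.log 2 ((B * H) ^ E) + 1 with hKdef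
  set Y : ℝ → ℕ → Finset (ℤ × ℤ) := fun t k => T.filter fun P => |(P.1 : ℝ)| ≤ (2 : ℝ) ^ (k + 1) ∧
    |(P.2 : ℝ) - t * P.1 - s t| ≤ C₁ * (H : ℝ) ^ 2 / (2 : ℝ) ^ k with hY
  have hsub : T ⊆ Z.biUnion fun t => (Finset.range K).biUnion fun k => Y t k := by
    intro P hP
    obtain ⟨h0, h1, t, ht, h2⟩ := hT P hP
    have hn0 : P.1.natAbs ≠ 0 := Int.natAbs_ne_zero.2 h0
    have habs : |(P.1 : ℝ)| = ((P.1.natAbs : ℕ) : ℝ) := by
      rw [Nat.cast_natAbs, Int.cast_abs]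
    have h3 : P.1.natAbs ≤ (B * H) ^ E := by
      rw [habs] at h1
      exact_mod_cast h1
    have h4 : 2 ^ Nat.log 2 P.1.natAbs ≤ P.1.natAbs := Nat.pow_log_le_self 2 hn0
    have h5 : P.1.natAbs < 2 ^ (Nat.log 2 P.1.natAbs + 1) := Nat.lt_pow_succ_log_self (by norm_num) _
    have h6 : Nat.log 2 P.1.natAbs ≤ Nat.log 2 ((B * H) ^ E) := Nat.log_mono_right h3
    simp only [Finset.mem_biUnion]
    refine ⟨t, ht, Nat.log 2 P.1.natAbs, Finset.mem_range.2 (by omega), ?_⟩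
    rw [hY]
    simp only [Finset.mem_filter]
    refine ⟨hP, ?_, ?_⟩
    · rw [habs]
      exact_mod_cast h5.le
    · refine h2.trans ?_
      rw [habs]
      refine div_le_div_of_nonneg_left (by positivity) (by positivity) ?_
      exact_mod_cast h4
  have hcard : ∀ t ∈ Z, ∀ k ∈ Finset.range K, ((Y t k).card : ℝ) ≤ Cs t * ((2 * B + 2 * C₁) * (H : ℝ) ^ 2) := by
    intro t ht k hk
    have hk' : k ≤ Nat.log 2 ((B * H) ^ E) := by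
      have := Finset.mem_range.1 hk
      omega
    have h1 := hstr t ht (s t) (C₁ * (H : ℝ) ^ 2 / (2 : ℝ) ^ k) ((2 : ℝ) ^ (k + 1)) (one_le_pow₀ (by norm_num))
      (by positivity) (Y t k) (by
        intro P hP
        rw [hY] at hP
        simp only [Finset.mem_filter] at hP
        exact hP.2)
    refine h1.trans (mul_le_mul_of_nonneg_left ?_ (hCs t ht))
    have h2 : C₁ * (H : ℝ) ^ 2 / (2 : ℝ) ^ k * (2 : ℝ) ^ (k + 1) = 2 * C₁ * (H : ℝ) ^ 2 := by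
      have h2' : (2 : ℝ) ^ k ≠ 0 := by positivity
      rw [pow_succ, div_mul_eq_mul_div, div_eq_iff h2']
      ring
    have h3 : (2 : ℝ) ^ k ≤ ((B * H : ℕ) : ℝ) ^ E := by
      have h4 : 2 ^ k ≤ (B * H) ^ E := (Nat.pow_le_pow_right (by norm_num) hk').trans (Nat.pow_log_le_self 2 (by positivity))
      exact_mod_cast h4
    have hBHr : (1 : ℝ) ≤ ((B * H : ℕ) : ℝ) := by exact_mod_cast hBH
    have h5 : ((2 : ℝ) ^ (k + 1)) ^ ε ≤ 2 * ((B : ℝ) * H) := by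
      have h6 : (2 : ℝ) ^ (k + 1) ≤ 2 * ((B * H : ℕ) : ℝ) ^ E := by
        rw [pow_succ]
        linarith
      have h7 : ((2 : ℝ) ^ (k + 1)) ^ ε ≤ (2 * ((B * H : ℕ) : ℝ) ^ E) ^ ε :=
        Real.rpow_le_rpow (by positivity) h6 hε0.le
      refine h7.trans ?_
      rw [Real.mul_rpow (by norm_num) (by positivity)]
      have h8 : (2 : ℝ) ^ ε ≤ 2 := by
        have := Real.rpow_le_rpow_of_exponent_le (by norm_num : (1 : ℝ) ≤ 2) hε1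
        rwa [Real.rpow_one] at this
      have h9 : (((B * H : ℕ) : ℝ) ^ E) ^ ε ≤ ((B * H : ℕ) : ℝ) := by
        rw [← Real.rpow_natCast, ← Real.rpow_mul (by positivity)]
        have := Real.rpow_le_rpow_of_exponent_le hBHr hε
        rwa [Real.rpow_one] at this
      have h10 : ((B * H : ℕ) : ℝ) = (B : ℝ) * H := by push_cast; ring
      rw [h10] at h9 ⊢
      exact mul_le_mul h8 h9 (by positivity) (by norm_num)
    rw [h2]
    have h11 : (B : ℝ) * H ≤ B * (H : ℝ) ^ 2 := by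
      refine mul_le_mul_of_nonneg_left ?_ (by positivity)
      nlinarith
    linarith
  have h1 : T.card ≤ ∑ t ∈ Z, ∑ k ∈ Finset.range K, (Y t k).card := by
    refine (Finset.card_le_card hsub).trans (Finset.card_biUnion_le.trans ?_)
    exact Finset.sum_le_sum fun t _ => Finset.card_biUnion_le
  have h2 : (T.card : ℝ) ≤ ∑ t ∈ Z, ∑ k ∈ Finset.range K, ((Y t k).card : ℝ) := by exact_mod_cast h1
  have h3 : ∑ t ∈ Z, ∑ k ∈ Finset.range K, ((Y t k).card : ℝ) ≤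
      ∑ t ∈ Z, (K : ℝ) * (Cs t * ((2 * B + 2 * C₁) * (H : ℝ) ^ 2)) := by
    refine Finset.sum_le_sum fun t ht => ?_
    refine (Finset.sum_le_sum fun k hk => hcard t ht k hk).trans ?_
    rw [Finset.sum_const, Finset.card_range, nsmul_eq_mul]
  have h4 : ∑ t ∈ Z, (K : ℝ) * (Cs t * ((2 * B + 2 * C₁) * (H : ℝ) ^ 2)) =
      (∑ t ∈ Z, Cs t) * K * ((2 * B + 2 * C₁) * (H : ℝ) ^ 2) := by
    rw [Finset.sum_mul, Finset.sum_mul]
    refine Finset.sum_congr rfl fun t _ => ?_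
    ring
  have h5 : (K : ℝ) ≤ CK * (H : ℝ) ^ (1 / 2 : ℝ) := hK H hH
  have h6 : (H : ℝ) ^ (5 / 2 : ℝ) = (H : ℝ) ^ (1 / 2 : ℝ) * (H : ℝ) ^ 2 := by
    rw [← Real.rpow_natCast, ← Real.rpow_add (by positivity)]
    norm_num
  rw [h6]
  calc (T.card : ℝ) ≤ (∑ t ∈ Z, Cs t) * K * ((2 * B + 2 * C₁) * (H : ℝ) ^ 2) := by
        rw [← h4]
        exact h2.trans h3
    _ ≤ (∑ t ∈ Z, Cs t) * (CK * (H : ℝ) ^ (1 / 2 : ℝ)) * ((2 * B + 2 * C₁) * (H : ℝ) ^ 2) := by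
        refine mul_le_mul_of_nonneg_right (mul_le_mul_of_nonneg_left h5 hS0) (by positivity)
    _ = _ := by ring

theorem chart' (n E B : ℕ) (hn : 2 ≤ n) (hB : 2 ≤ B) (f : ℕ → ℕ → ℤ) (hnz : Nz n f) (c0 : ℝ) (hc0 : 0 < c0)
    (hgd : Gd n c0 f) : ∃ A C : ℝ, 1 ≤ A ∧ 0 ≤ C ∧ ∀ H : ℕ, 1 ≤ H → ∀ (g : ℕ → ℕ → ℤ) (T : Finset (ℤ × ℤ)),
      (∀ P ∈ T, ∃ e : ℕ → ℕ → ℤ, (∀ a b, a + b = n → f a b = e a b) ∧ (∀ a b, a + b = n - 1 → e a b = g a b) ∧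
        Bs n (2 * B) H e ∧ |P.2| ≤ |P.1| ∧ A * H ≤ |(P.1 : ℝ)| ∧ |(P.1 : ℝ)| ≤ ((B * H : ℕ) : ℝ) ^ E ∧
        ev n e P.1 P.2 = 0) →
      (T.card : ℝ) ≤ C * (H : ℝ) ^ (5 / 2 : ℝ) := by
  classical
  have hB1 : (1 : ℝ) ≤ 2 * B := by
    have : (2 : ℝ) ≤ B := by exact_mod_cast hB
    linarith
  obtain ⟨A, C₁, hA, hC₁, hnear⟩ := near n hn (2 * B) c0 hB1 hc0
  -- the polynomial is nonzero
  have hfm : fm f n ≠ 0 := by
    intro h0
    have h1 := hnz 1 0 (Or.inl one_ne_zero)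
    apply h1
    refine Finset.sum_eq_zero fun j hj => ?_
    have h2 : (fm f n).coeff j = 0 := by rw [h0]; simp
    rw [fm_coeff, if_pos (by have := Finset.mem_range.1 hj; omega)] at h2
    rw [h2, zero_mul]
  -- real roots are irrational
  have hirr : ∀ t : ℝ, Polynomial.aeval t (fm f n) = 0 → Irrational t := by
    intro t ht
    rw [irrational_iff_ne_rational]
    intro p q hq hpq
    have hq' : (q : ℝ) ≠ 0 := by exact_mod_cast hq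
    apply hnz q p (Or.inl hq)
    have h1 : ((∑ j ∈ Finset.range (n + 1), f (n - j) j * (q ^ (n - j) * p ^ j) : ℤ) : ℝ) =
        (q : ℝ) ^ n * Polynomial.aeval t (fm f n) := by
      rw [fm_aeval, Finset.mul_sum]
      push_cast
      refine Finset.sum_congr rfl fun j hj => ?_
      have hj' : j ≤ n := by
        have := Finset.mem_range.1 hj
        omega
      rw [hpq, div_pow, show (q : ℝ) ^ n = (q : ℝ) ^ (n - j) * (q : ℝ) ^ j by rw [← pow_add]; congr 1; omega]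
      field_simp
    rw [ht, mul_zero] at h1
    exact_mod_cast h1
  set ε : ℝ := 1 / (4 * E + 4) with hε
  have hε0 : 0 < ε := by positivity
  have hE : (0 : ℝ) ≤ E := by positivity
  have hε1 : ε ≤ 1 := by
    rw [hε, div_le_one (by positivity)]
    linarith
  have hεE : E * ε ≤ 1 := by
    rw [hε, mul_one_div, div_le_one (by positivity)]
    linarith
  have hst : ∀ t : ℝ, ∃ C : ℝ, 0 ≤ C ∧ (Polynomial.aeval t (fm f n) = 0 → ∀ s w X : ℝ, 1 ≤ X → 0 ≤ w →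
      ∀ T : Finset (ℤ × ℤ), (∀ P ∈ T, |(P.1 : ℝ)| ≤ X ∧ |(P.2 : ℝ) - t * P.1 - s| ≤ w) →
        (T.card : ℝ) ≤ C * (X ^ ε + w * X)) := by
    intro t
    by_cases ht : Polynomial.aeval t (fm f n) = 0
    · obtain ⟨c, hc, hR⟩ := roth (fm f n) hfm t (hirr t ht) ht ε hε0
      obtain ⟨C, hC, h⟩ := strip t ε c hc hε0 hR
      exact ⟨C, hC, fun _ => h⟩
    · exact ⟨0, le_refl _, fun h => absurd h ht⟩
  choose Cs hCs0 hCs using hst
  set Z : Finset ℝ := ((fm f n).aroots ℝ).toFinset with hZ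
  have hmem : ∀ t : ℝ, t ∈ Z ↔ Polynomial.aeval t (fm f n) = 0 := by
    intro t
    rw [hZ, Multiset.mem_toFinset, Polynomial.mem_aroots]
    exact ⟨fun h => h.2, fun h => ⟨hfm, h⟩⟩
  obtain ⟨C, hC, hcnt⟩ := cnt1 Z Cs ε hε0 E B (by omega) hεE hε1 C₁ hC₁ (fun t _ => hCs0 t)
    (fun t ht => hCs t ((hmem t).1 ht))
  refine ⟨A, C, hA, hC, ?_⟩
  intro H hH g T hT
  refine hcnt H hH (fun t => - (Polynomial.aeval t (fm g (n - 1)) / Polynomial.aeval t (Polynomial.derivative (fm f n)))) T ?_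
  intro P hP
  obtain ⟨e, h1, h2, h3, h4, h5, h6, h7⟩ := hT P hP
  have hH1 : (1 : ℝ) ≤ H := by exact_mod_cast hH
  have hP0 : P.1 ≠ 0 := by
    intro h0
    rw [h0] at h5
    simp only [Int.cast_zero, abs_zero] at h5
    nlinarith
  obtain ⟨t, ht, h8⟩ := hnear e H hH1 h3 (gd_congr h1 hgd) P.1 P.2 h4 h5 h7
  have hfe : fm e n = fm f n := fm_cg' fun a b h => (h1 a b h).symm
  have hfg : fm e (n - 1) = fm g (n - 1) := fm_cg' h2
  rw [hfe] at ht h8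
  rw [hfg] at h8
  refine ⟨hP0, h6, t, (hmem t).2 ht, ?_⟩
  simp only [sub_neg_eq_add]
  exact h8

end Pool.Agent.H12.TU
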