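import Pool.Agent.H12.TU.Liv

/-! # [H12 TU DG1] One digit: integer vectors near a hyperplane, at a point near an asymptote (helper12)

`f` irreducible of degree `n`, `t` a real zero, `|τ - t| ≤ R H/X`. The `u ∈ ℤ^(i+1)`, `i < n`, `|u_a| ≤ H`, with `|∑ u_a τ^a - θ| ≤ R H/X` are at most `C (H/h)^i`, as soon
as `h^n H ≤ c X`: two in a cube of side `h` in `u_1, …, u_i` differ by `D`, `|D_0| ≤ C h`, `|D(t)| ≤ C h H/X`; Liouville. -/

namespace Pool.Agent.H12.TU

open Polynomial Finset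

theorem pow_lip' {s s' : ℝ} (hs : |s| ≤ 2) (hs' : |s'| ≤ 2) (i : ℕ) : |s ^ i - s' ^ i| ≤ i * 2 ^ i * |s - s'| := by
  induction i with
  | zero => simp
  | succ i ih =>
    have e : s ^ (i + 1) - s' ^ (i + 1) = s * (s ^ i - s' ^ i) + (s - s') * s' ^ i := by ring
    rw [e]
    refine (abs_add_le _ _).trans ?_
    rw [abs_mul, abs_mul, abs_pow]
    have h1 : |s| * |s ^ i - s' ^ i| ≤ 2 * (i * 2 ^ i * |s - s'|) := mul_le_mul hs ih (abs_nonneg _) (by norm_num)
    have h2 : |s - s'| * |s'| ^ i ≤ |s - s'| * 2 ^ i := by gcongr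
    push_cast
    rw [pow_succ]
    have h3 : (0 : ℝ) ≤ 2 ^ i * |s - s'| := by positivity
    nlinarith

/-- polynomial of a vector -/
noncomputable def pv {i : ℕ} (u : Fin (i + 1) → ℤ) : ℤ[X] := ∑ a : Fin (i + 1), monomial (a : ℕ) (u a)

theorem pv_coeff {i : ℕ} (u : Fin (i + 1) → ℤ) (k : ℕ) : (pv u).coeff k = if h : k < i + 1 then u ⟨k, h⟩ else 0 := by
  unfold pv
  rw [finsetSum_coeff]
  simp only [coeff_monomial]
  split_ifs with h
  · rw [Finset.sum_eq_single (⟨k, h⟩ : Fin (i + 1))]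
    · simp
    · intro b _ hb
      rw [if_neg]
      intro h2
      apply hb
      exact Fin.ext h2
    · intro h2
      exact absurd (Finset.mem_univ _) h2
  · refine Finset.sum_eq_zero fun a _ => ?_
    rw [if_neg]
    intro h2
    exact h (h2 ▸ a.2)

theorem pv_aeval {i : ℕ} (u : Fin (i + 1) → ℤ) (t : ℝ) : aeval t (pv u) = ∑ a : Fin (i + 1), (u a : ℝ) * t ^ (a : ℕ) := by
  unfold pv
  rw [map_sum]
  refine Finset.sum_congr rfl fun a _ => ?_
  rw [aeval_monomial]
  simp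

theorem pv_deg {i : ℕ} (u : Fin (i + 1) → ℤ) : (pv u).natDegree ≤ i := by
  rw [natDegree_le_iff_coeff_eq_zero]
  intro k hk
  rw [pv_coeff, dif_neg (by omega)]

theorem dg1 (n i : ℕ) (hi : i + 1 ≤ n) (f : ℤ[X]) (hf : f.natDegree = n) (hirr : Irreducible (f.map (Int.castRingHom ℚ)))
    (R : ℝ) (hR : 1 ≤ R) : ∃ c : ℝ, 0 < c ∧ c ≤ 1 ∧ ∀ t : ℝ, aeval t f = 0 → |t| ≤ 2 → ∀ (H : ℕ) (X τ h θ : ℝ), 1 ≤ H → (H : ℝ) ≤ X → |τ| ≤ 1 →
    |τ - t| ≤ R * H / X → 1 ≤ h → h ≤ H → h ^ n * H ≤ c * X → ∀ U : Finset (Fin (i + 1) → ℤ),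
    (∀ u ∈ U, (∀ a, |u a| ≤ (H : ℤ)) ∧ |∑ a : Fin (i + 1), (u a : ℝ) * τ ^ (a : ℕ) - θ| ≤ R * H / X) →
    (U.card : ℝ) ≤ (10 * (H / h)) ^ i := by
  classical
  obtain ⟨B, hB1, hB⟩ : ∃ B : ℝ, 1 ≤ B ∧ ∀ k, |(f.coeff k : ℝ)| ≤ B := by
    refine ⟨1 + ∑ k ∈ f.support, |(f.coeff k : ℝ)|, ?_, ?_⟩
    · have : 0 ≤ ∑ k ∈ f.support, |(f.coeff k : ℝ)| := Finset.sum_nonneg fun _ _ => abs_nonneg _
      linarith
    · intro k
      by_cases hk : k ∈ f.support
      · have h1 := Finset.single_le_sum (f := fun k => |(f.coeff k : ℝ)|) (fun _ _ => abs_nonneg _) hk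
        linarith
      · rw [notMem_support_iff.1 hk]
        have : 0 ≤ ∑ k ∈ f.support, |(f.coeff k : ℝ)| := Finset.sum_nonneg fun _ _ => abs_nonneg _
        simp only [Int.cast_zero, abs_zero]
        linarith
  obtain ⟨K₀, hK₀⟩ : ∃ K₀ : ℝ, K₀ = B ^ n * (n * (2 * B) ^ n * (2 * R + n)) ^ (n - 1) := ⟨_, rfl⟩
  obtain ⟨K₁, hK₁⟩ : ∃ K₁ : ℝ, K₁ = 2 * R + n * (n * 2 ^ n) * R := ⟨_, rfl⟩
  have hn0 : (0 : ℝ) ≤ n := Nat.cast_nonneg n
  have hn1 : (1 : ℝ) ≤ n := by exact_mod_cast (by omega : 1 ≤ n)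
  have hK₀0 : 0 < K₀ := by rw [hK₀]; positivity
  have hK₁0 : 1 ≤ K₁ := by
    rw [hK₁]
    have : 0 ≤ (n : ℝ) * (n * 2 ^ n) * R := by positivity
    linarith
  refine ⟨1 / (2 * (K₀ * K₁) + 1), by positivity, ?_, ?_⟩
  · rw [div_le_one (by positivity)]
    have : 0 < K₀ * K₁ := by positivity
    linarith
  intro t ht ht2 H X τ h θ hH hHX hτ hτt hh1 hhH hhX U hU
  have hH1 : (1 : ℝ) ≤ H := by exact_mod_cast hH
  have hX0 : 0 < X := by linarith
  have hh0 : 0 < h := by linarith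
  obtain ⟨s, hs⟩ : ∃ s : ℕ, s = ⌊h⌋₊ := ⟨_, rfl⟩
  have hs1 : 1 ≤ s := by
    rw [hs, Nat.one_le_floor_iff]
    exact hh1
  have hsh : (s : ℝ) ≤ h := by
    rw [hs]
    exact Nat.floor_le hh0.le
  have hhs : h ≤ 2 * s := by
    have h1 : h < (s : ℝ) + 1 := by
      rw [hs]
      exact Nat.lt_floor_add_one h
    have h2 : (1 : ℝ) ≤ s := by exact_mod_cast hs1
    linarith
  have hs0 : (0 : ℝ) < s := by exact_mod_cast hs1
  -- the classes
  obtain ⟨κ, hκ⟩ : ∃ κ : (Fin (i + 1) → ℤ) → (Fin i → ℤ), κ = fun u a => u a.succ / (s : ℤ) := ⟨_, rfl⟩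
  have hinj : Set.InjOn κ (U : Set (Fin (i + 1) → ℤ)) := by
    intro u hu u' hu' huu
    by_contra hne
    obtain ⟨D, hD⟩ : ∃ D : Fin (i + 1) → ℤ, D = u - u' := ⟨_, rfl⟩
    have hD0 : D ≠ 0 := by rw [hD]; exact sub_ne_zero.2 hne
    obtain ⟨_, hu1⟩ := hU u hu
    obtain ⟨_, hu1'⟩ := hU u' hu'
    -- the coordinates
    have hDs : ∀ a : Fin i, |(D a.succ : ℝ)| ≤ h := by
      intro a
      have h1 := congrFun huu a
      rw [hκ] at h1
      simp only at h1
      have h2 : |D a.succ| ≤ (s : ℤ) := by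
        rw [hD, Pi.sub_apply]
        have hsz : (0 : ℤ) < (s : ℤ) := by exact_mod_cast hs1
        have e1 := Int.mul_ediv_add_emod (u a.succ) (s : ℤ)
        have e2 := Int.mul_ediv_add_emod (u' a.succ) (s : ℤ)
        have e3 := Int.emod_nonneg (u a.succ) hsz.ne'
        have e4 := Int.emod_lt_of_pos (u a.succ) hsz
        have e5 := Int.emod_nonneg (u' a.succ) hsz.ne'
        have e6 := Int.emod_lt_of_pos (u' a.succ) hsz
        rw [h1] at e1
        rw [abs_le]
        constructor <;> linarith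
      have h3 : ((|D a.succ| : ℤ) : ℝ) ≤ ((s : ℤ) : ℝ) := by exact_mod_cast h2
      rw [Int.cast_abs] at h3
      exact h3.trans (by exact_mod_cast hsh)
    have hval : |∑ a : Fin (i + 1), (D a : ℝ) * τ ^ (a : ℕ)| ≤ 2 * R * H / X := by
      have e1 : ∑ a : Fin (i + 1), (D a : ℝ) * τ ^ (a : ℕ) =
          (∑ a : Fin (i + 1), (u a : ℝ) * τ ^ (a : ℕ) - θ) - (∑ a : Fin (i + 1), (u' a : ℝ) * τ ^ (a : ℕ) - θ) := by
        rw [sub_sub_sub_cancel_right, ← Finset.sum_sub_distrib]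
        refine Finset.sum_congr rfl fun a _ => ?_
        rw [hD, Pi.sub_apply]
        push_cast
        ring
      rw [e1]
      refine (abs_sub _ _).trans ?_
      calc _ ≤ R * H / X + R * H / X := add_le_add hu1 hu1'
        _ = _ := by ring
    have hrest : |∑ a : Fin i, (D a.succ : ℝ) * τ ^ (a.succ : ℕ)| ≤ n * h := by
      refine (Finset.abs_sum_le_sum_abs _ _).trans ?_
      have h1 : ∀ a ∈ (univ : Finset (Fin i)), |(D a.succ : ℝ) * τ ^ (a.succ : ℕ)| ≤ h := by
        intro a _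
        rw [abs_mul, abs_pow]
        calc |(D a.succ : ℝ)| * |τ| ^ (a.succ : ℕ) ≤ h * 1 :=
              mul_le_mul (hDs a) (pow_le_one₀ (abs_nonneg _) hτ) (by positivity) hh0.le
          _ = h := mul_one _
      refine (Finset.sum_le_card_nsmul _ _ _ h1).trans ?_
      rw [card_univ, Fintype.card_fin, nsmul_eq_mul]
      refine mul_le_mul_of_nonneg_right ?_ hh0.le
      exact_mod_cast (by omega : i ≤ n)
    have hHX1 : (H : ℝ) / X ≤ 1 := by
      rw [div_le_one hX0]
      exact hHX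
    have hD00 : |(D 0 : ℝ)| ≤ (2 * R + n) * h := by
      have e1 : (D 0 : ℝ) = ∑ a : Fin (i + 1), (D a : ℝ) * τ ^ (a : ℕ) - ∑ a : Fin i, (D a.succ : ℝ) * τ ^ (a.succ : ℕ) := by
        rw [Fin.sum_univ_succ]
        simp
      rw [e1]
      refine (abs_sub _ _).trans ?_
      have h2 : 2 * R * H / X ≤ 2 * R * h := by
        calc 2 * R * H / X = 2 * R * (H / X) := by ring
          _ ≤ 2 * R * h := by
            refine mul_le_mul_of_nonneg_left ?_ (by positivity)
            linarith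
      linarith
    have hcoef : ∀ k, |((pv D).coeff k : ℝ)| ≤ (2 * R + n) * h := by
      intro k
      rw [pv_coeff]
      split_ifs with hk
      · rcases Nat.eq_zero_or_pos k with rfl | hk0
        · exact hD00
        · have e1 : (⟨k, hk⟩ : Fin (i + 1)) = (⟨k - 1, by omega⟩ : Fin i).succ := by
            apply Fin.ext
            simp
            omega
          rw [e1]
          refine (hDs _).trans ?_
          have : 1 * h ≤ (2 * R + n) * h := mul_le_mul_of_nonneg_right (by linarith) hh0.le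
          linarith
      · simp only [Int.cast_zero, abs_zero]
        positivity
    have hpv0 : pv D ≠ 0 := by
      intro h0
      apply hD0
      funext a
      have h1 := congrArg (fun p => p.coeff (a : ℕ)) h0
      simp only [coeff_zero] at h1
      rw [pv_coeff, dif_pos a.2] at h1
      exact h1
    -- the value at `t`
    have hvt : |aeval t (pv D)| ≤ K₁ * (h * H / X) := by
      have e1 : aeval t (pv D) = ∑ a : Fin (i + 1), (D a : ℝ) * τ ^ (a : ℕ) +
          ∑ a : Fin i, (D a.succ : ℝ) * (t ^ (a.succ : ℕ) - τ ^ (a.succ : ℕ)) := by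
        rw [pv_aeval, Fin.sum_univ_succ, Fin.sum_univ_succ, add_assoc, ← Finset.sum_add_distrib]
        congr 1
        refine Finset.sum_congr rfl fun a _ => ?_
        ring
      rw [e1]
      refine (abs_add_le _ _).trans ?_
      have h1 : |∑ a : Fin i, (D a.succ : ℝ) * (t ^ (a.succ : ℕ) - τ ^ (a.succ : ℕ))| ≤ n * (n * 2 ^ n) * R * (h * H / X) := by
        refine (Finset.abs_sum_le_sum_abs _ _).trans ?_
        have h2 : ∀ a ∈ (univ : Finset (Fin i)), |(D a.succ : ℝ) * (t ^ (a.succ : ℕ) - τ ^ (a.succ : ℕ))| ≤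
            h * ((n * 2 ^ n) * (R * H / X)) := by
          intro a _
          rw [abs_mul]
          refine mul_le_mul (hDs a) ?_ (abs_nonneg _) hh0.le
          refine (pow_lip' ht2 (hτ.trans (by norm_num)) _).trans ?_
          have h3 : ((a.succ : ℕ) : ℝ) * 2 ^ (a.succ : ℕ) ≤ n * 2 ^ n := by
            have h4 : (a.succ : ℕ) ≤ n := by
              have := a.succ.2
              omega
            refine mul_le_mul (by exact_mod_cast h4) (pow_le_pow_right₀ (by norm_num) h4) (by positivity) hn0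
          have h5 : |t - τ| ≤ R * H / X := by rw [abs_sub_comm]; exact hτt
          exact mul_le_mul h3 h5 (abs_nonneg _) (by positivity)
        refine (Finset.sum_le_card_nsmul _ _ _ h2).trans ?_
        rw [card_univ, Fintype.card_fin, nsmul_eq_mul]
        have h4 : (i : ℝ) ≤ n := by exact_mod_cast (by omega : i ≤ n)
        calc (i : ℝ) * (h * ((n * 2 ^ n) * (R * H / X))) ≤ n * (h * ((n * 2 ^ n) * (R * H / X))) :=
              mul_le_mul_of_nonneg_right h4 (by positivity)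
          _ = _ := by ring
      have h2 : 2 * R * H / X ≤ 2 * R * (h * H / X) := by
        calc 2 * R * H / X = 2 * R * (1 * H / X) := by ring
          _ ≤ 2 * R * (h * H / X) := by gcongr
      rw [hK₁]
      linarith
    -- Liouville
    have hL := liv n f (pv D) B ((2 * R + n) * h) hB1 (by positivity) hf hirr hB hpv0 (lt_of_le_of_lt (pv_deg D) (by omega)) hcoef (t : ℂ) (by
      have h1 : aeval (t : ℂ) f = ((aeval t f : ℝ) : ℂ) := by
        rw [← Complex.coe_algebraMap, aeval_algebraMap_apply]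
      rw [h1, ht, Complex.ofReal_zero])
    have e2 : ‖aeval (t : ℂ) (pv D)‖ = |aeval t (pv D)| := by
      have h1 : aeval (t : ℂ) (pv D) = ((aeval t (pv D) : ℝ) : ℂ) := by
        rw [← Complex.coe_algebraMap, aeval_algebraMap_apply]
      rw [h1, Complex.norm_real, Real.norm_eq_abs]
    rw [e2] at hL
    have e3 : B ^ n * (n * (2 * B) ^ n * ((2 * R + n) * h)) ^ (n - 1) = K₀ * h ^ (n - 1) := by
      have e4 : (n : ℝ) * (2 * B) ^ n * ((2 * R + n) * h) = (n * (2 * B) ^ n * (2 * R + n)) * h := by ring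
      rw [hK₀, e4, mul_pow _ h]
      ring
    rw [e3] at hL
    have h4 : K₀ * h ^ (n - 1) * |aeval t (pv D)| ≤ K₀ * h ^ (n - 1) * (K₁ * (h * H / X)) :=
      mul_le_mul_of_nonneg_left hvt (by positivity)
    have h5 : K₀ * h ^ (n - 1) * (K₁ * (h * H / X)) = K₀ * K₁ * (h ^ n * H / X) := by
      have h6 : h ^ n = h ^ (n - 1) * h := by
        rw [← pow_succ]
        congr 1
        omega
      rw [h6]
      ring
    have h6 : h ^ n * H / X ≤ 1 / (2 * (K₀ * K₁) + 1) := by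
      rw [div_le_iff₀ hX0]
      exact hhX
    have h7 : K₀ * K₁ * (h ^ n * H / X) ≤ K₀ * K₁ * (1 / (2 * (K₀ * K₁) + 1)) :=
      mul_le_mul_of_nonneg_left h6 (by positivity)
    have h8 : K₀ * K₁ * (1 / (2 * (K₀ * K₁) + 1)) < 1 := by
      rw [mul_one_div, div_lt_one (by positivity)]
      have : 0 < K₀ * K₁ := by positivity
      linarith
    linarith
  -- the number of classes
  obtain ⟨M, hM⟩ : ∃ M : ℕ, M = H / s + 1 := ⟨_, rfl⟩
  have hmaps : U.image κ ⊆ Fintype.piFinset fun _ : Fin i => Finset.Icc (-(M : ℤ)) M := by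
    intro v hv
    obtain ⟨u, hu, rfl⟩ := Finset.mem_image.1 hv
    rw [Fintype.mem_piFinset]
    intro a
    rw [hκ, Finset.mem_Icc]
    simp only
    have h1 := (hU u hu).1 a.succ
    have hsz : (0 : ℤ) < (s : ℤ) := by exact_mod_cast hs1
    have h2 := abs_le.1 h1
    have h3 : (H : ℤ) / (s : ℤ) = ((H / s : ℕ) : ℤ) := by push_cast; rfl
    have h5 : (H : ℤ) < (s : ℤ) * ((H / s : ℕ) + 1 : ℤ) := by
      have := Nat.lt_mul_div_succ H (by omega : 0 < s)
      exact_mod_cast this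
    constructor
    · rw [Int.le_ediv_iff_mul_le hsz, hM]
      push_cast
      push_cast at h5
      nlinarith
    · have h4 : u a.succ / (s : ℤ) < (M : ℤ) := by
        rw [Int.ediv_lt_iff_lt_mul hsz, hM]
        push_cast
        push_cast at h5
        nlinarith
      exact h4.le
  have h1 : U.card ≤ (2 * M + 1) ^ i := by
    rw [← card_image_of_injOn hinj]
    refine (card_le_card hmaps).trans ?_
    rw [Fintype.card_piFinset]
    simp only [Int.card_Icc, prod_const, card_univ, Fintype.card_fin]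
    apply Nat.pow_le_pow_left
    omega
  have h2 : ((2 * M + 1 : ℕ) : ℝ) ≤ 10 * (H / h) := by
    have h3 : ((H / s : ℕ) : ℝ) ≤ (H : ℝ) / s := Nat.cast_div_le
    have h4 : (H : ℝ) / s ≤ 2 * (H / h) := by
      rw [div_le_iff₀ hs0]
      calc (H : ℝ) = (H / h) * h := by field_simp
        _ ≤ (H / h) * (2 * s) := by gcongr
        _ = _ := by ring
    have h5 : 1 ≤ (H : ℝ) / h := by
      rw [one_le_div hh0]
      exact hhH
    rw [hM]
    push_cast
    push_cast at h3
    linarith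
  calc (U.card : ℝ) ≤ ((2 * M + 1 : ℕ) : ℝ) ^ i := by exact_mod_cast h1
    _ ≤ (10 * (H / h)) ^ i := pow_le_pow_left₀ (Nat.cast_nonneg _) h2 i

end Pool.Agent.H12.TU
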