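import Pool.Agent.H12.TU.Dg1
import Pool.Agent.H88.A2.Ar

/-! # [H12 TU DGS] How many polynomials of degree `≤ j` take a given value at a point near a zero of the leading form (helper12)

Induction on `j`: `dg1` for the terms of degree `j`, then the terms of degree `< j`. -/

namespace Pool.Agent.H12.TU

open Polynomial Pool.Agent.H8.AA

/-- exponents of degree `≤ i` among those of degree `≤ i + 1` -/
private def phi {i : ℕ} (q : Ix i) : Ix (i + 1) := ix q.1.1.val q.1.2.val (by have := q.2; omega)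

private theorem phi_ix {i : ℕ} (a b : ℕ) (h : a + b ≤ i) : phi (ix a b h) = ix a b (by omega : a + b ≤ i + 1) := rfl

/-- the terms of degree `j + 1` -/
private def tp {j : ℕ} (u : Ix (j + 1) → ℤ) (a : Fin (j + 1 + 1)) : ℤ := u (ix (j + 1 - a.val) a.val (by have := a.2; omega))

private theorem low_ev {j : ℕ} (u : Ix (j + 1) → ℤ) (x y : ℤ) :
    ev (j + 1) (co u) x y = ev j (co fun q : Ix j => u (phi q)) x y +
      ∑ a : Fin (j + 1 + 1), tp u a * (x ^ (j + 1 - a.val) * y ^ a.val) := by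
  unfold ev
  rw [Finset.sum_range_succ]
  congr 1
  · refine Finset.sum_congr rfl fun k hk => Finset.sum_congr rfl fun a ha => ?_
    have hk' := Finset.mem_range.1 hk
    have ha' := Finset.mem_range.1 ha
    rw [co_of_le u (by omega : k - a + a ≤ j + 1), co_of_le _ (by omega : k - a + a ≤ j), phi_ix]
  · rw [Finset.sum_range]
    refine Finset.sum_congr rfl fun a _ => ?_
    have := a.2
    rw [co_of_le u (by omega : j + 1 - a.val + a.val ≤ j + 1)]
    rfl

private theorem ev_bd (j H : ℕ) (e : ℕ → ℕ → ℤ) (he : ∀ a b, |e a b| ≤ (H : ℤ)) (x y : ℤ) (hx : 1 ≤ |x|) (hyx : |y| ≤ |x|) :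
    |((ev j e x y : ℤ) : ℝ)| ≤ ((j : ℝ) + 1) ^ 2 * H * |(x : ℝ)| ^ j := by
  have h1 : |ev j e x y| ≤ ((j : ℤ) + 1) ^ 2 * H * |x| ^ j := by
    unfold ev
    refine (Finset.abs_sum_le_sum_abs _ _).trans ?_
    have h2 : ∀ k ∈ Finset.range (j + 1), |∑ a ∈ Finset.range (k + 1), e (k - a) a * (x ^ (k - a) * y ^ a)| ≤ ((j : ℤ) + 1) * (H * |x| ^ j) := by
      intro k hk
      have hk' := Finset.mem_range.1 hk
      refine (Finset.abs_sum_le_sum_abs _ _).trans ?_
      have h3 : ∀ a ∈ Finset.range (k + 1), |e (k - a) a * (x ^ (k - a) * y ^ a)| ≤ H * |x| ^ j := by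
        intro a ha
        have ha' := Finset.mem_range.1 ha
        rw [abs_mul, abs_mul, abs_pow, abs_pow]
        have h4 : |x| ^ (k - a) * |y| ^ a ≤ |x| ^ j :=
          calc |x| ^ (k - a) * |y| ^ a ≤ |x| ^ (k - a) * |x| ^ a :=
                mul_le_mul_of_nonneg_left (pow_le_pow_left₀ (abs_nonneg _) hyx a) (by positivity)
            _ = |x| ^ k := by rw [← pow_add]; congr 1; omega
            _ ≤ |x| ^ j := pow_le_pow_right₀ hx (by omega)
        exact mul_le_mul (he _ _) h4 (by positivity) (by positivity)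
      refine (Finset.sum_le_sum h3).trans ?_
      rw [Finset.sum_const, Finset.card_range, nsmul_eq_mul]
      refine mul_le_mul_of_nonneg_right ?_ (by positivity)
      push_cast
      have : (k : ℤ) ≤ j := by exact_mod_cast (by omega : k ≤ j)
      linarith
    refine (Finset.sum_le_sum h2).trans ?_
    rw [Finset.sum_const, Finset.card_range, nsmul_eq_mul]
    push_cast
    apply le_of_eq
    ring
  have h2 : ((|ev j e x y| : ℤ) : ℝ) ≤ ((((j : ℤ) + 1) ^ 2 * H * |x| ^ j : ℤ) : ℝ) := by exact_mod_cast h1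
  push_cast at h2
  exact h2

theorem dgs (n : ℕ) (f : ℤ[X]) (hf : f.natDegree = n) (hirr : Irreducible (f.map (Int.castRingHom ℚ)))
    (R : ℝ) (hR : 1 ≤ R) : ∃ c : ℝ, 0 < c ∧ c ≤ 1 ∧ ∀ t : ℝ, aeval t f = 0 → |t| ≤ 2 → ∀ (H : ℕ) (x y : ℤ) (h : ℝ), 1 ≤ H →
    (H : ℝ) ≤ |(x : ℝ)| → |y| ≤ |x| → |(y : ℝ) - t * x| ≤ R * H → 1 ≤ h → h ≤ H → h ^ n * H ≤ c * |(x : ℝ)| →
    ∀ j, j + 1 ≤ n → ∀ (N : ℤ) (U : Finset (Ix j → ℤ)), (∀ u ∈ U, (∀ p, |u p| ≤ (H : ℤ)) ∧ ev j (co u) x y = N) →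
    (U.card : ℝ) ≤ (10 * (H / h)) ^ (j * (j + 1) / 2) := by
  classical
  obtain ⟨R', hR'⟩ : ∃ R' : ℝ, R' = R + ((n : ℝ) + 1) ^ 2 := ⟨_, rfl⟩
  have hR'1 : 1 ≤ R' := by
    rw [hR']
    have : 0 ≤ ((n : ℝ) + 1) ^ 2 := by positivity
    linarith
  have hex : ∀ i : ℕ, ∃ c : ℝ, 0 < c ∧ c ≤ 1 ∧ (i + 1 ≤ n → ∀ t : ℝ, aeval t f = 0 → |t| ≤ 2 → ∀ (H : ℕ) (X τ h θ : ℝ), 1 ≤ H → (H : ℝ) ≤ X → |τ| ≤ 1 →
    |τ - t| ≤ R' * H / X → 1 ≤ h → h ≤ H → h ^ n * H ≤ c * X → ∀ U : Finset (Fin (i + 1) → ℤ),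
    (∀ u ∈ U, (∀ a, |u a| ≤ (H : ℤ)) ∧ |∑ a : Fin (i + 1), (u a : ℝ) * τ ^ (a : ℕ) - θ| ≤ R' * H / X) →
    (U.card : ℝ) ≤ (10 * (H / h)) ^ i) := by
    intro i
    by_cases hi : i + 1 ≤ n
    · obtain ⟨c, h1, h2, h3⟩ := dg1 n i hi f hf hirr R' hR'1
      exact ⟨c, h1, h2, fun _ => h3⟩
    · exact ⟨1, one_pos, le_refl _, fun h => absurd h hi⟩
  choose c hc0 hc1 hc using hex
  obtain ⟨C, hC⟩ : ∃ C : ℝ, C = ∏ i ∈ Finset.range n, c i := ⟨_, rfl⟩
  have hC0 : 0 < C := by rw [hC]; exact Finset.prod_pos fun i _ => hc0 i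
  have hC1 : C ≤ 1 := by rw [hC]; exact Finset.prod_le_one (fun i _ => (hc0 i).le) fun i _ => hc1 i
  have hCi : ∀ i, i < n → C ≤ c i := by
    intro i hi
    rw [hC, ← Finset.mul_prod_erase (Finset.range n) c (Finset.mem_range.2 hi)]
    exact mul_le_of_le_one_right (hc0 i).le (Finset.prod_le_one (fun i _ => (hc0 i).le) fun i _ => hc1 i)
  refine ⟨C, hC0, hC1, ?_⟩
  intro t ht ht2 H x y h hH hHx hyx hyt hh1 hhH hhX
  have hH1 : (1 : ℝ) ≤ H := by exact_mod_cast hH
  have hX0 : 0 < |(x : ℝ)| := by linarith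
  have hx0 : (x : ℝ) ≠ 0 := abs_pos.1 hX0
  have hx1 : 1 ≤ |x| := by
    have h1 : x ≠ 0 := by exact_mod_cast hx0
    exact Int.one_le_abs h1
  obtain ⟨τ, hτ⟩ : ∃ τ : ℝ, τ = (y : ℝ) / x := ⟨_, rfl⟩
  have hτx : τ * x = y := by rw [hτ]; field_simp
  have hτ1 : |τ| ≤ 1 := by
    rw [hτ, abs_div, div_le_one hX0]
    exact_mod_cast hyx
  have hτt : |τ - t| ≤ R' * H / |(x : ℝ)| := by
    rw [le_div_iff₀ hX0, ← abs_mul, sub_mul, hτx]
    refine hyt.trans ?_
    refine mul_le_mul_of_nonneg_right ?_ (by linarith)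
    rw [hR']
    have : 0 ≤ ((n : ℝ) + 1) ^ 2 := by positivity
    linarith
  have hq0 : 0 ≤ 10 * ((H : ℝ) / h) := by positivity
  intro j
  induction j with
  | zero =>
    intro _ N U hU
    have h1 : U.card ≤ 1 := by
      rw [Finset.card_le_one]
      intro u hu u' hu'
      have e1 : ∀ v : Ix 0 → ℤ, ev 0 (co v) x y = v (ix 0 0 (by omega)) := by
        intro v
        unfold ev
        simp [co_of_le v (by omega : 0 + 0 ≤ 0)]
      have h2 := (hU u hu).2
      have h3 := (hU u' hu').2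
      rw [e1] at h2 h3
      funext p
      have h4 : p = ix 0 0 (by omega) := by
        have h5 := p.2
        refine Subtype.ext (Prod.ext (Fin.ext ?_) (Fin.ext ?_))
        · show p.1.1.val = 0
          omega
        · show p.1.2.val = 0
          omega
      rw [h4, h2, h3]
    have h2 : (U.card : ℝ) ≤ 1 := by exact_mod_cast h1
    simpa using h2
  | succ j ih =>
    intro hj N U hU
    obtain ⟨V, hV⟩ : ∃ V : Finset (Fin (j + 1 + 1) → ℤ), V = U.image tp := ⟨_, rfl⟩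
    have hVc : (V.card : ℝ) ≤ (10 * (H / h)) ^ (j + 1) := by
      refine hc (j + 1) hj t ht ht2 H |(x : ℝ)| τ h ((N : ℝ) / (x : ℝ) ^ (j + 1)) hH hHx hτ1 hτt hh1 hhH ?_ V ?_
      · exact hhX.trans (mul_le_mul_of_nonneg_right (hCi (j + 1) (by omega)) hX0.le)
      · intro w hw
        rw [hV, Finset.mem_image] at hw
        obtain ⟨u, hu, rfl⟩ := hw
        obtain ⟨h1, h2⟩ := hU u hu
        refine ⟨fun a => h1 _, ?_⟩
        rw [low_ev] at h2
        have h3 : (∑ a : Fin (j + 1 + 1), (tp u a : ℝ) * τ ^ (a : ℕ)) * (x : ℝ) ^ (j + 1) =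
            ((∑ a : Fin (j + 1 + 1), tp u a * (x ^ (j + 1 - a.val) * y ^ a.val) : ℤ) : ℝ) := by
          rw [Finset.sum_mul]
          push_cast
          refine Finset.sum_congr rfl fun a _ => ?_
          have ha := a.2
          have h4 : (x : ℝ) ^ (j + 1) = (x : ℝ) ^ (j + 1 - a.val) * (x : ℝ) ^ a.val := by
            rw [← pow_add]
            congr 1
            omega
          rw [← hτx, mul_pow, h4]
          ring
        have h4 : (∑ a : Fin (j + 1 + 1), (tp u a : ℝ) * τ ^ (a : ℕ) - (N : ℝ) / (x : ℝ) ^ (j + 1)) * (x : ℝ) ^ (j + 1) =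
            -((ev j (co fun q : Ix j => u (phi q)) x y : ℤ) : ℝ) := by
          rw [sub_mul, div_mul_cancel₀ _ (pow_ne_zero _ hx0), h3, ← h2]
          push_cast
          ring
        have h5 := ev_bd j H (co fun q : Ix j => u (phi q)) (by
          intro a b
          unfold co
          split_ifs
          · exact h1 _
          · simp) x y hx1 hyx
        have h6 : |∑ a : Fin (j + 1 + 1), (tp u a : ℝ) * τ ^ (a : ℕ) - (N : ℝ) / (x : ℝ) ^ (j + 1)| * |(x : ℝ)| ^ (j + 1) ≤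
            ((j : ℝ) + 1) ^ 2 * H * |(x : ℝ)| ^ j := by
          rw [← abs_pow, ← abs_mul, h4, abs_neg]
          exact h5
        have h7 : 0 < |(x : ℝ)| ^ j := by positivity
        rw [le_div_iff₀ hX0]
        have h8 : |∑ a : Fin (j + 1 + 1), (tp u a : ℝ) * τ ^ (a : ℕ) - (N : ℝ) / (x : ℝ) ^ (j + 1)| * |(x : ℝ)| ≤ ((j : ℝ) + 1) ^ 2 * H := by
          refine le_of_mul_le_mul_right ?_ h7
          have e : |(x : ℝ)| ^ (j + 1) = |(x : ℝ)| ^ j * |(x : ℝ)| := pow_succ _ _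
          rw [e] at h6
          linarith
        refine h8.trans (mul_le_mul_of_nonneg_right ?_ (by linarith))
        rw [hR']
        have h9 : ((j : ℝ) + 1) ^ 2 ≤ ((n : ℝ) + 1) ^ 2 := by
          have : (j : ℝ) ≤ n := by exact_mod_cast (by omega : j ≤ n)
          gcongr
        linarith
    have hfib : ∀ w ∈ V, (((U.filter fun u => tp u = w).card : ℕ) : ℝ) ≤ (10 * (H / h)) ^ (j * (j + 1) / 2) := by
      intro w hw
      rw [hV, Finset.mem_image] at hw
      obtain ⟨u₀, hu₀, hu₀w⟩ := hw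
      obtain ⟨W, hW⟩ : ∃ W : Finset (Ix (j + 1) → ℤ), W = U.filter fun u => tp u = w := ⟨_, rfl⟩
      rw [← hW]
      have hinj : Set.InjOn (fun u : Ix (j + 1) → ℤ => fun q : Ix j => u (phi q)) (W : Set (Ix (j + 1) → ℤ)) := by
        intro u hu u' hu' huu
        rw [hW, Finset.coe_filter] at hu hu'
        funext p
        have hp := p.2
        by_cases hpj : p.1.1.val + p.1.2.val ≤ j
        · exact congrFun huu (ix p.1.1.val p.1.2.val hpj)
        · have h1 : p = ix (j + 1 - p.1.2.val) p.1.2.val (by omega) := by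
            refine Subtype.ext (Prod.ext (Fin.ext ?_) (Fin.ext ?_))
            · show p.1.1.val = j + 1 - p.1.2.val
              omega
            · rfl
          have h2 := congrFun (hu.2.trans hu'.2.symm) ⟨p.1.2.val, by omega⟩
          rw [h1]
          exact h2
      rw [← Finset.card_image_of_injOn hinj]
      refine ih (by omega) (N - ∑ a : Fin (j + 1 + 1), tp u₀ a * (x ^ (j + 1 - a.val) * y ^ a.val)) _ ?_
      intro v hv
      obtain ⟨u, hu, rfl⟩ := Finset.mem_image.1 hv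
      rw [hW, Finset.mem_filter] at hu
      obtain ⟨h1, h2⟩ := hU u hu.1
      refine ⟨fun q => h1 _, ?_⟩
      rw [low_ev, hu.2, ← hu₀w] at h2
      linarith
    have hsum : (U.card : ℝ) = ∑ w ∈ V, (((U.filter fun u => tp u = w).card : ℕ) : ℝ) := by
      rw [hV, Finset.card_eq_sum_card_image tp U]
      push_cast
      rfl
    have hexp : (j + 1) * (j + 1 + 1) / 2 = (j + 1) + j * (j + 1) / 2 := by
      have h1 : (j + 1) * (j + 1 + 1) = j * (j + 1) + (j + 1) * 2 := by ring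
      rw [h1, Nat.add_mul_div_right _ _ (by norm_num)]
      ring
    rw [hsum, hexp, pow_add]
    refine (Finset.sum_le_sum hfib).trans ?_
    rw [Finset.sum_const, nsmul_eq_mul]
    exact mul_le_mul_of_nonneg_right hVc (pow_nonneg hq0 _)

end Pool.Agent.H12.TU
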