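import Pool.Agent.H12.TU.Cht

/-! # [H12 TU NR] Zeros are within `O(S)` of a line through the origin (helper12) -/

namespace Pool.Agent.H12.TU

open MvPolynomial Pool.Agent.H8.AA Pool.Agent.H88.A2 Pool.Agent.H88.TS

private theorem fbd (e : ℕ → ℕ → ℤ) (k : ℕ) (D t : ℝ) (hD : 0 ≤ D) (h : ∀ j, j ≤ k → |(e (k - j) j : ℝ)| ≤ D) :
    |Polynomial.aeval t (fm e k)| ≤ (k + 1) * D * (1 + |t|) ^ k := by
  rw [fm_aeval]
  refine (Finset.abs_sum_le_sum_abs _ _).trans ?_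
  have h1 : ∀ j ∈ Finset.range (k + 1), |(e (k - j) j : ℝ) * t ^ j| ≤ D * (1 + |t|) ^ k := by
    intro j hj
    have hj' := Finset.mem_range.1 hj
    rw [abs_mul, abs_pow]
    have h2 : |t| ^ j ≤ (1 + |t|) ^ k :=
      (pow_le_pow_left₀ (abs_nonneg _) (by linarith) j).trans (pow_le_pow_right₀ (by linarith [abs_nonneg t]) (by omega))
    exact mul_le_mul (h j (by omega)) h2 (by positivity) hD
  refine (Finset.sum_le_sum h1).trans ?_
  rw [Finset.sum_const, Finset.card_range, nsmul_eq_mul]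
  push_cast
  linarith

theorem nr (n : ℕ) (hn : 2 ≤ n) (B : ℝ) (hB : 1 ≤ B) (f : ℕ → ℕ → ℤ) (hfm : fm f n ≠ 0) (c0 : ℝ) (hc0 : 0 < c0) (hgd : Gd n c0 f) :
    ∃ A R : ℝ, 1 ≤ A ∧ 1 ≤ R ∧ ∀ (e : ℕ → ℕ → ℤ) (S : ℝ), 1 ≤ S → (∀ a b, a + b = n → f a b = e a b) → Bs n B S e →
      ∀ x y : ℤ, |y| ≤ |x| → A * S ≤ |(x : ℝ)| → ev n e x y = 0 →
      ∃ t : ℝ, Polynomial.aeval t (fm f n) = 0 ∧ |t| ≤ 2 ∧ |(y : ℝ) - t * x| ≤ R * S := by
  classical
  obtain ⟨A₀, C₀, hA₀, hC₀, hnear⟩ := near n hn B c0 hB hc0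
  obtain ⟨Z, hZ⟩ : ∃ Z : Finset ℝ, ∀ t, t ∈ Z ↔ Polynomial.aeval t (fm f n) = 0 := by
    refine ⟨((fm f n).aroots ℝ).toFinset, fun t => ?_⟩
    rw [Multiset.mem_toFinset, Polynomial.mem_aroots]
    exact ⟨fun h => h.2, fun h => ⟨hfm, h⟩⟩
  obtain ⟨W, hW⟩ : ∃ W : ℝ → ℝ, W = fun t => (n * B * (1 + |t|) ^ n) / |Polynomial.aeval t (Polynomial.derivative (fm f n))| := ⟨_, rfl⟩
  have hn0 : (0 : ℝ) ≤ n := Nat.cast_nonneg n
  have hW0 : ∀ t, 0 ≤ W t := by
    intro t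
    rw [hW]
    positivity
  obtain ⟨R, hR⟩ : ∃ R : ℝ, R = 1 + C₀ + ∑ t ∈ Z, W t := ⟨_, rfl⟩
  have hS0 : 0 ≤ ∑ t ∈ Z, W t := Finset.sum_nonneg fun t _ => hW0 t
  have hR1 : 1 ≤ R := by rw [hR]; linarith
  refine ⟨max A₀ R, R, hA₀.trans (le_max_left _ _), hR1, ?_⟩
  intro e S hS htop hbs x y hyx hAx hev
  have hA1 : A₀ * S ≤ |(x : ℝ)| := (mul_le_mul_of_nonneg_right (le_max_left _ _) (by linarith)).trans hAx
  have hR2 : R * S ≤ |(x : ℝ)| := (mul_le_mul_of_nonneg_right (le_max_right _ _) (by linarith)).trans hAx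
  have hx0 : 0 < |(x : ℝ)| := by nlinarith
  obtain ⟨t, ht, h1⟩ := hnear e S hS hbs (gd_congr htop hgd) x y hyx hA1 hev
  have hfe : fm e n = fm f n := fm_cg' fun a b h => (htop a b h).symm
  rw [hfe] at ht h1
  have h2 : C₀ * S ^ 2 / |(x : ℝ)| ≤ C₀ * S := by
    rw [div_le_iff₀ hx0]
    have h3 : S ≤ |(x : ℝ)| := by nlinarith
    have h4 : 0 ≤ C₀ * S := by positivity
    nlinarith
  have h3 : |Polynomial.aeval t (fm e (n - 1)) / Polynomial.aeval t (Polynomial.derivative (fm f n))| ≤ W t * S := by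
    rw [hW, abs_div]
    have h4 : |Polynomial.aeval t (fm e (n - 1))| ≤ n * B * (1 + |t|) ^ n * S := by
      have h5 := fbd e (n - 1) (B * S) t (by positivity) (by
        intro j hj
        have h6 := hbs (n - 1 - j) j (by omega)
        have h7 : n - (n - 1 - j) - j = 1 := by omega
        rw [h7, pow_one] at h6
        exact h6)
      have h8 : ((n - 1 : ℕ) : ℝ) + 1 = n := by
        have : ((n - 1 + 1 : ℕ) : ℝ) = n := by
          congr 1
          omega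
        push_cast at this
        exact this
      rw [h8] at h5
      refine h5.trans ?_
      have h9 : (1 + |t|) ^ (n - 1) ≤ (1 + |t|) ^ n := pow_le_pow_right₀ (by linarith [abs_nonneg t]) (by omega)
      calc (n : ℝ) * (B * S) * (1 + |t|) ^ (n - 1) ≤ n * (B * S) * (1 + |t|) ^ n := mul_le_mul_of_nonneg_left h9 (by positivity)
        _ = _ := by ring
    simp only
    rw [div_mul_eq_mul_div]
    exact div_le_div_of_nonneg_right h4 (abs_nonneg _)
  have h4 : W t ≤ ∑ t ∈ Z, W t := Finset.single_le_sum (f := W) (fun t _ => hW0 t) ((hZ t).2 ht)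
  have h5 : |(y : ℝ) - t * x| ≤ R * S := by
    have h6 : (y : ℝ) - t * x = ((y : ℝ) - t * x + Polynomial.aeval t (fm e (n - 1)) / Polynomial.aeval t (Polynomial.derivative (fm f n))) -
        Polynomial.aeval t (fm e (n - 1)) / Polynomial.aeval t (Polynomial.derivative (fm f n)) := by ring
    rw [h6]
    refine (abs_sub _ _).trans ?_
    have h7 : W t * S ≤ (∑ t ∈ Z, W t) * S := mul_le_mul_of_nonneg_right h4 (by linarith)
    have h8 : R * S = S + C₀ * S + (∑ t ∈ Z, W t) * S := by rw [hR]; ring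
    rw [h8]
    linarith
  refine ⟨t, ht, ?_, h5⟩
  have h6 : |t| * |(x : ℝ)| ≤ 2 * |(x : ℝ)| := by
    rw [← abs_mul]
    have h7 : t * (x : ℝ) = y - ((y : ℝ) - t * x) := by ring
    rw [h7]
    refine (abs_sub _ _).trans ?_
    have h8 : |(y : ℝ)| ≤ |(x : ℝ)| := by exact_mod_cast hyx
    linarith
  exact le_of_mul_le_mul_right h6 hx0

end Pool.Agent.H12.TU
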