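import Pool.Agent.H12.TU.Pt4
import Pool.Agent.H12.TU.Nr
import Pool.Agent.H88.TS.Br

/-! # [H12 TU HAL] The middle range for `n = 4`, `j = 3` in one chart (helper12)

`|x| ≤ H^7`: all points within `R H` of the lines `y = t x` (`nr`), `pt4` vectors at each, `xsum`. `|x| > H^7`: at most `2 K` vectors at a point, for each of the
`(2H+1)^4` choices of the terms of degree `3` at most `C H^(5/2)` points (`chart'`). -/

namespace Pool.Agent.H12.TU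

open MvPolynomial Pool.Agent.H8.AA Pool.Agent.H88.A2 Pool.Agent.H88.TS

/-- `f + c` -/
private def ea (f : ℕ → ℕ → ℤ) (c : Ix 3 → ℤ) (a b : ℕ) : ℤ := f a b + co c a b

private theorem ea_ev (f : ℕ → ℕ → ℤ) (c : Ix 3 → ℤ) (x y : ℤ) : ev 4 (ea f c) x y = ev 4 f x y + ev 3 (co c) x y := by
  have h1 : ev 4 (ea f c) x y = ev 4 f x y + ev 4 (co c) x y := by
    unfold ev ea
    rw [← Finset.sum_add_distrib]
    refine Finset.sum_congr rfl fun k _ => ?_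
    rw [← Finset.sum_add_distrib]
    refine Finset.sum_congr rfl fun j _ => ?_
    ring
  have h2 : ev 4 (co c) x y = ev 3 (co c) x y := by
    unfold ev
    rw [Finset.sum_range_succ _ 4]
    have h3 : ∑ j ∈ Finset.range (4 + 1), co c (4 - j) j * (x ^ (4 - j) * y ^ j) = 0 := by
      refine Finset.sum_eq_zero fun j hj => ?_
      have hj' := Finset.mem_range.1 hj
      have h4 : co c (4 - j) j = 0 := by
        unfold co
        rw [dif_neg (by omega)]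
      rw [h4, zero_mul]
    rw [h3, add_zero]
  rw [h1, h2]

private theorem ea_bs (f : ℕ → ℕ → ℤ) (B H : ℕ) (hH : 1 ≤ H) (hB : 2 ≤ B) (hfB : ∀ a b, a + b ≤ 4 → |f a b| + 1 ≤ (B : ℤ))
    (c : Ix 3 → ℤ) (hc : ∀ p, |c p| ≤ (H : ℤ)) : Bs 4 (2 * B) H (ea f c) := by
  intro a b hab
  have hHz : (1 : ℤ) ≤ H := by exact_mod_cast hH
  have hBz : (2 : ℤ) ≤ B := by exact_mod_cast hB
  have h1 : |ea f c a b| ≤ 2 * (B : ℤ) * (H : ℤ) ^ (4 - a - b) := by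
    unfold ea
    refine (abs_add_le _ _).trans ?_
    have h2 := hfB a b hab
    have h3 : (1 : ℤ) ≤ (H : ℤ) ^ (4 - a - b) := one_le_pow₀ hHz
    by_cases h4 : a + b ≤ 3
    · have h5 : |co c a b| ≤ (H : ℤ) := by
        rw [co_of_le c h4]
        exact hc _
      have h6 : (H : ℤ) ≤ (H : ℤ) ^ (4 - a - b) := le_self_pow₀ hHz (by omega)
      nlinarith
    · have h5 : co c a b = 0 := by
        unfold co
        rw [dif_neg h4]
      rw [h5, abs_zero]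
      nlinarith
  have h2 : ((|ea f c a b| : ℤ) : ℝ) ≤ ((2 * (B : ℤ) * (H : ℤ) ^ (4 - a - b) : ℤ) : ℝ) := by exact_mod_cast h1
  push_cast at h2
  exact h2

/-- the terms of degree `3` -/
private def gm (c : Ix 3 → ℤ) (a : Fin 4) : ℤ := c (ix (3 - a.val) a.val (by have := a.2; omega))

private theorem gm_co {c c' : Ix 3 → ℤ} (h : gm c = gm c') {a b : ℕ} (hab : a + b = 3) : co c a b = co c' a b := by
  rw [co_of_le c hab.le, co_of_le c' hab.le]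
  have h1 := congrFun h ⟨b, by omega⟩
  have h2 : (ix a b hab.le : Ix 3) = ix (3 - b) b (by omega) := by
    refine Subtype.ext (Prod.ext (Fin.ext ?_) (Fin.ext ?_))
    · show a = 3 - b
      omega
    · rfl
  rw [h2]
  exact h1

theorem half (f : ℕ → ℕ → ℤ) (hnz : Nz 4 f) (c0 : ℝ) (hc0 : 0 < c0) (hgd : Gd 4 c0 f) (hf : (fm f 4).natDegree = 4)
    (hirr : Irreducible ((fm f 4).map (Int.castRingHom ℚ))) (B E : ℕ) (hB : 2 ≤ B) (hfB : ∀ a b, a + b ≤ 4 → |f a b| + 1 ≤ (B : ℤ)) :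
    ∃ A C : ℝ, 1 ≤ A ∧ 0 ≤ C ∧ ∀ H : ℕ, 1 ≤ H → ∀ T : Finset (Ix 3 → ℤ),
      (∀ c ∈ T, (∀ p, |c p| ≤ (H : ℤ)) ∧ ∃ x y : ℤ, |y| ≤ |x| ∧ A * H ≤ |(x : ℝ)| ∧ |(x : ℝ)| ≤ ((B * H : ℕ) : ℝ) ^ E ∧
        ev 4 f x y + ev 3 (co c) x y = 0) →
      (T.card : ℝ) ≤ C * (2 * (H : ℝ) + 1) ^ 9 * (H : ℝ) ^ (-(1 / 2) : ℝ) := by
  classical
  have hfm : fm f 4 ≠ 0 := by
    intro h
    rw [h] at hf
    simp at hf
  have hB1 : (1 : ℝ) ≤ 2 * B := by
    have : (2 : ℝ) ≤ B := by exact_mod_cast hB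
    linarith
  obtain ⟨A₁, R, hA₁, hR, hnr⟩ := nr 4 (by norm_num) (2 * B) hB1 f hfm c0 hc0 hgd
  obtain ⟨A₂, K, hA₂, hK, hpt⟩ := pt4 (fm f 4) hf hirr R hR
  obtain ⟨A₃, C₃, hA₃, hC₃, hch⟩ := chart' 4 E B (by norm_num) hB f hnz c0 hc0 hgd
  obtain ⟨Z, hZ⟩ : ∃ Z : Finset ℝ, ∀ t, t ∈ Z ↔ Polynomial.aeval t (fm f 4) = 0 := by
    refine ⟨((fm f 4).aroots ℝ).toFinset, fun t => ?_⟩
    rw [Multiset.mem_toFinset, Polynomial.mem_aroots]
    exact ⟨fun h => h.2, fun h => ⟨hfm, h⟩⟩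
  refine ⟨max A₁ (max A₂ A₃), 96 * K * Z.card * R + 2 * K * C₃, hA₁.trans (le_max_left _ _), by positivity, ?_⟩
  intro H hH T hT
  have hH1 : (1 : ℝ) ≤ H := by exact_mod_cast hH
  have hH0 : (0 : ℝ) < H := by linarith
  have hch1 : ∀ c : Ix 3 → ℤ, ∃ Q : ℤ × ℤ, c ∈ T → (|Q.2| ≤ |Q.1| ∧ max A₁ (max A₂ A₃) * H ≤ |(Q.1 : ℝ)| ∧
      |(Q.1 : ℝ)| ≤ ((B * H : ℕ) : ℝ) ^ E ∧ ev 4 f Q.1 Q.2 + ev 3 (co c) Q.1 Q.2 = 0) := by
    intro c
    by_cases hc : c ∈ T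
    · obtain ⟨_, x, y, h⟩ := hT c hc
      exact ⟨(x, y), fun _ => h⟩
    · exact ⟨(0, 0), fun h => absurd h hc⟩
  choose F hF using hch1
  have hA1H : A₁ * H ≤ max A₁ (max A₂ A₃) * H := mul_le_mul_of_nonneg_right (le_max_left _ _) hH0.le
  have hA2H : A₂ * H ≤ max A₁ (max A₂ A₃) * H :=
    mul_le_mul_of_nonneg_right ((le_max_left _ _).trans (le_max_right _ _)) hH0.le
  have hA3H : A₃ * H ≤ max A₁ (max A₂ A₃) * H :=
    mul_le_mul_of_nonneg_right ((le_max_right _ _).trans (le_max_right _ _)) hH0.le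
  -- roots
  have hrt : ∀ c ∈ T, ∃ t ∈ Z, |t| ≤ 2 ∧ |((F c).2 : ℝ) - t * (F c).1| ≤ R * H := by
    intro c hc
    obtain ⟨h1, h2, h3, h4⟩ := hF c hc
    obtain ⟨t, ht, ht2, h5⟩ := hnr (ea f c) H hH1 (by
      intro a b hab
      unfold ea co
      rw [dif_neg (by omega), add_zero]) (ea_bs f B H hH hB hfB c (hT c hc).1) (F c).1 (F c).2 h1 (hA1H.trans h2) (by rw [ea_ev]; exact h4)
    exact ⟨t, (hZ t).2 ht, ht2, h5⟩
  have hx0 : ∀ c ∈ T, 0 < |((F c).1 : ℝ)| := by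
    intro c hc
    have h1 := hA1H.trans (hF c hc).2.1
    nlinarith
  -- fibres
  have hfib : ∀ T' : Finset (Ix 3 → ℤ), T' ⊆ T → ∀ Q ∈ T'.image F, (((T'.filter fun c => F c = Q).card : ℕ) : ℝ) ≤
      K * (1 + (H : ℝ) ^ 7 / |(Q.1 : ℝ)|) := by
    intro T' hT' Q hQ
    obtain ⟨c₁, hc₁, rfl⟩ := Finset.mem_image.1 hQ
    obtain ⟨h1, h2, h3, h4⟩ := hF c₁ (hT' hc₁)
    obtain ⟨t, ht, ht2, h5⟩ := hrt c₁ (hT' hc₁)
    refine hpt t ((hZ t).1 ht) ht2 H (F c₁).1 (F c₁).2 hH (hA2H.trans h2) h1 h5 (- ev 4 f (F c₁).1 (F c₁).2) _ ?_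
    intro c hc
    rw [Finset.mem_filter] at hc
    have h6 := (hF c (hT' hc.1)).2.2.2
    rw [hc.2] at h6
    exact ⟨(hT c (hT' hc.1)).1, by linarith⟩
  obtain ⟨T₁, hT₁⟩ : ∃ T₁ : Finset (Ix 3 → ℤ), T₁ = T.filter fun c => (F c).1.natAbs ≤ H ^ 7 := ⟨_, rfl⟩
  obtain ⟨T₂, hT₂⟩ : ∃ T₂ : Finset (Ix 3 → ℤ), T₂ = T.filter fun c => ¬ (F c).1.natAbs ≤ H ^ 7 := ⟨_, rfl⟩
  have hsum : T.card = T₁.card + T₂.card := by
    rw [hT₁, hT₂]
    exact (Finset.card_filter_add_card_filter_not _).symm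
  have hsub1 : T₁ ⊆ T := by rw [hT₁]; exact Finset.filter_subset _ _
  have hsub2 : T₂ ⊆ T := by rw [hT₂]; exact Finset.filter_subset _ _
  obtain ⟨u, hu⟩ : ∃ u : ℝ, u = (H : ℝ) ^ (-(1 / 2) : ℝ) := ⟨_, rfl⟩
  have hu0 : 0 ≤ u := by rw [hu]; exact Real.rpow_nonneg hH0.le _
  obtain ⟨v, hv⟩ : ∃ v : ℝ, v = (H : ℝ) ^ (1 / 2 : ℝ) := ⟨_, rfl⟩
  have hv1 : 1 ≤ v := by rw [hv]; exact Real.one_le_rpow hH1 (by norm_num)
  have huv : v = H * u := by
    rw [hv, hu]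
    have h1 : (H : ℝ) ^ (1 / 2 : ℝ) = (H : ℝ) ^ (1 + -(1 / 2) : ℝ) := by norm_num
    rw [h1, Real.rpow_add hH0, Real.rpow_one]
  have h52 : (H : ℝ) ^ (5 / 2 : ℝ) = (H : ℝ) ^ 3 * u := by
    rw [hu, ← Real.rpow_natCast (H : ℝ) 3, ← Real.rpow_add hH0]
    norm_num
  -- the first part
  have hb1 : (T₁.card : ℝ) ≤ 96 * K * Z.card * R * ((2 * (H : ℝ) + 1) ^ 9 * u) := by
    have h1 : (T₁.card : ℝ) = ∑ Q ∈ T₁.image F, (((T₁.filter fun c => F c = Q).card : ℕ) : ℝ) := by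
      rw [Finset.card_eq_sum_card_image F T₁]
      push_cast
      rfl
    have h2 : (T₁.card : ℝ) ≤ K * ∑ Q ∈ T₁.image F, (1 + (H : ℝ) ^ 7 / |(Q.1 : ℝ)|) := by
      rw [h1, Finset.mul_sum]
      exact Finset.sum_le_sum (hfib T₁ hsub1)
    have h3 := xsum Z (R * H) (by nlinarith) (H ^ 7) ((H : ℝ) ^ 7) (by positivity) (T₁.image F) (by
      intro Q hQ
      obtain ⟨c, hc, rfl⟩ := Finset.mem_image.1 hQ
      have hcT := hsub1 hc
      rw [hT₁, Finset.mem_filter] at hc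
      obtain ⟨t, ht, _, h5⟩ := hrt c hcT
      refine ⟨?_, hc.2, t, ht, h5⟩
      intro h6
      have h7 := hx0 c hcT
      rw [h6] at h7
      simp at h7)
    have h4 : Real.log ((H ^ 7 : ℕ) : ℝ) ≤ 14 * v := by
      push_cast
      rw [Real.log_pow]
      have h5 : Real.log (H : ℝ) ≤ (H : ℝ) ^ (1 / 2 : ℝ) / (1 / 2 : ℝ) := Real.log_le_rpow_div hH0.le (by norm_num)
      rw [← hv] at h5
      push_cast
      linarith
    have h5 : ((H ^ 7 : ℕ) : ℝ) + (H : ℝ) ^ 7 * (1 + Real.log ((H ^ 7 : ℕ) : ℝ)) ≤ 16 * (H : ℝ) ^ 7 * v := by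
      have h6 : ((H ^ 7 : ℕ) : ℝ) = (H : ℝ) ^ 7 := by push_cast; rfl
      rw [h6] at h4 ⊢
      have h7 : 0 ≤ (H : ℝ) ^ 7 := by positivity
      nlinarith
    have h6 : 0 ≤ 6 * (Z.card : ℝ) * (R * H) := by positivity
    have h7 : K * ∑ Q ∈ T₁.image F, (1 + (H : ℝ) ^ 7 / |(Q.1 : ℝ)|) ≤ K * (6 * Z.card * (R * H) * (16 * (H : ℝ) ^ 7 * v)) :=
      mul_le_mul_of_nonneg_left (h3.trans (mul_le_mul_of_nonneg_left h5 h6)) hK
    have h8 : K * (6 * Z.card * (R * H) * (16 * (H : ℝ) ^ 7 * v)) = 96 * K * Z.card * R * ((H : ℝ) ^ 9 * u) := by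
      rw [huv]
      ring
    rw [h8] at h7
    refine h2.trans (h7.trans (mul_le_mul_of_nonneg_left ?_ (by positivity)))
    refine mul_le_mul_of_nonneg_right ?_ hu0
    exact pow_le_pow_left₀ hH0.le (by linarith) 9
  -- the second part
  have hb2 : (T₂.card : ℝ) ≤ 2 * K * C₃ * ((2 * (H : ℝ) + 1) ^ 9 * u) := by
    obtain ⟨V, hV⟩ : ∃ V : Finset (Fin 4 → ℤ), V = T₂.image gm := ⟨_, rfl⟩
    have hVc : (V.card : ℝ) ≤ (2 * (H : ℝ) + 1) ^ 4 := by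
      have h1 : V ⊆ Fintype.piFinset fun _ : Fin 4 => Finset.Icc (-(H : ℤ)) H := by
        intro w hw
        rw [hV] at hw
        obtain ⟨c, hc, rfl⟩ := Finset.mem_image.1 hw
        rw [Fintype.mem_piFinset]
        intro a
        rw [Finset.mem_Icc]
        exact abs_le.1 ((hT c (hsub2 hc)).1 _)
      have h2 := Finset.card_le_card h1
      rw [Fintype.card_piFinset] at h2
      simp only [Int.card_Icc, Finset.prod_const, Finset.card_univ, Fintype.card_fin] at h2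
      have h3 : ((H : ℤ) + 1 - -(H : ℤ)).toNat = 2 * H + 1 := by omega
      rw [h3] at h2
      exact_mod_cast h2
    have hfw : ∀ w ∈ V, (((T₂.filter fun c => gm c = w).card : ℕ) : ℝ) ≤ C₃ * (H : ℝ) ^ (5 / 2 : ℝ) * (2 * K) := by
      intro w hw
      rw [hV] at hw
      obtain ⟨c₁, hc₁, hc₁w⟩ := Finset.mem_image.1 hw
      obtain ⟨Tw, hTw⟩ : ∃ Tw : Finset (Ix 3 → ℤ), Tw = T₂.filter fun c => gm c = w := ⟨_, rfl⟩
      rw [← hTw]
      have hsw : Tw ⊆ T := by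
        rw [hTw]
        exact (Finset.filter_subset _ _).trans hsub2
      have h1 : (Tw.card : ℝ) = ∑ Q ∈ Tw.image F, (((Tw.filter fun c => F c = Q).card : ℕ) : ℝ) := by
        rw [Finset.card_eq_sum_card_image F Tw]
        push_cast
        rfl
      have h2 : ∀ Q ∈ Tw.image F, (((Tw.filter fun c => F c = Q).card : ℕ) : ℝ) ≤ 2 * K := by
        intro Q hQ
        refine (hfib Tw hsw Q hQ).trans ?_
        obtain ⟨c, hc, rfl⟩ := Finset.mem_image.1 hQ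
        have hcT := hsw hc
        rw [hTw, Finset.mem_filter, hT₂, Finset.mem_filter] at hc
        have h3 : (H : ℝ) ^ 7 ≤ |((F c).1 : ℝ)| := by
          have h4 : H ^ 7 ≤ (F c).1.natAbs := by
            have := hc.1.2
            omega
          have h5 : |((F c).1 : ℝ)| = (((F c).1.natAbs : ℕ) : ℝ) := by rw [Nat.cast_natAbs, Int.cast_abs]
          rw [h5]
          exact_mod_cast h4
        have h4 : (H : ℝ) ^ 7 / |((F c).1 : ℝ)| ≤ 1 := div_le_one_of_le₀ h3 (abs_nonneg _)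
        nlinarith
      have h3 := hch H hH (fun a b => f a b + co c₁ a b) (Tw.image F) (by
        intro Q hQ
        obtain ⟨c, hc, rfl⟩ := Finset.mem_image.1 hQ
        have hcT := hsw hc
        rw [hTw, Finset.mem_filter] at hc
        obtain ⟨g1, g2, g3, g4⟩ := hF c hcT
        refine ⟨ea f c, ?_, ?_, ea_bs f B H hH hB hfB c (hT c hcT).1, g1, hA3H.trans g2, g3, by rw [ea_ev]; exact g4⟩
        · intro a b hab
          unfold ea co
          rw [dif_neg (by omega), add_zero]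
        · intro a b hab
          show f a b + co c a b = f a b + co c₁ a b
          rw [gm_co (hc.2.trans hc₁w.symm) (by omega : a + b = 3)])
      rw [h1]
      refine (Finset.sum_le_sum h2).trans ?_
      rw [Finset.sum_const, nsmul_eq_mul]
      exact mul_le_mul_of_nonneg_right h3 (by positivity)
    have h1 : (T₂.card : ℝ) = ∑ w ∈ V, (((T₂.filter fun c => gm c = w).card : ℕ) : ℝ) := by
      rw [hV, Finset.card_eq_sum_card_image gm T₂]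
      push_cast
      rfl
    have h2 : (T₂.card : ℝ) ≤ (2 * (H : ℝ) + 1) ^ 4 * (C₃ * (H : ℝ) ^ (5 / 2 : ℝ) * (2 * K)) := by
      rw [h1]
      refine (Finset.sum_le_sum hfw).trans ?_
      rw [Finset.sum_const, nsmul_eq_mul]
      exact mul_le_mul_of_nonneg_right hVc (by positivity)
    rw [h52] at h2
    refine h2.trans ?_
    have h3 : (2 * (H : ℝ) + 1) ^ 4 * (C₃ * ((H : ℝ) ^ 3 * u) * (2 * K)) = 2 * K * C₃ * (((2 * (H : ℝ) + 1) ^ 4 * (H : ℝ) ^ 3) * u) := by ring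
    rw [h3]
    refine mul_le_mul_of_nonneg_left (mul_le_mul_of_nonneg_right ?_ hu0) (by positivity)
    have h4 : (H : ℝ) ^ 3 ≤ (2 * (H : ℝ) + 1) ^ 5 :=
      (pow_le_pow_left₀ hH0.le (by linarith : (H : ℝ) ≤ 2 * H + 1) 3).trans (pow_le_pow_right₀ (by linarith) (by norm_num))
    calc (2 * (H : ℝ) + 1) ^ 4 * (H : ℝ) ^ 3 ≤ (2 * (H : ℝ) + 1) ^ 4 * (2 * (H : ℝ) + 1) ^ 5 :=
          mul_le_mul_of_nonneg_left h4 (by positivity)
      _ = _ := by ring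
  rw [hsum, ← hu]
  push_cast
  calc (T₁.card : ℝ) + T₂.card ≤ 96 * K * Z.card * R * ((2 * (H : ℝ) + 1) ^ 9 * u) + 2 * K * C₃ * ((2 * (H : ℝ) + 1) ^ 9 * u) := by linarith
    _ = _ := by ring

end Pool.Agent.H12.TU
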