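import Pool.Agent.H88.A2.Ar
import Pool.Agent.H2.AA.Sng

/-! # [H12 TU IRF] The form at `(1,T)` and `(T,1)` is irreducible of degree `n` (helper12; copied from helper88's `A2.Gd`, there private) -/

namespace Pool.Agent.H12.TU

open Finset Pool.Agent.H8.AA Pool.Agent.H88.A2

private theorem hc_eq (n : ℕ) (G : MvPolynomial (Fin 2) ℤ) :
    MvPolynomial.homogeneousComponent n G = ∑ i ∈ range (n + 1),
      MvPolynomial.monomial (Finsupp.single 0 i + Finsupp.single 1 (n - i)) (ar G i (n - i)) := by
  classical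
  ext m
  rw [MvPolynomial.coeff_homogeneousComponent, MvPolynomial.coeff_sum]
  simp only [MvPolynomial.coeff_monomial]
  have hm : Finsupp.single 0 (m 0) + Finsupp.single 1 (m 1) = m := by
    ext i
    fin_cases i <;> simp
  have hdeg : m.degree = m 0 + m 1 := by
    conv_lhs => rw [← hm]
    simp
  split_ifs with h
  · rw [Finset.sum_eq_single (m 0)]
    · have h1 : n - m 0 = m 1 := by omega
      rw [h1, if_pos hm]
      unfold ar
      rw [hm]
    · intro i _ hi
      rw [if_neg]
      intro h2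
      apply hi
      rw [← h2]
      simp
    · intro h2
      exfalso
      apply h2
      rw [Finset.mem_range]
      omega
  · rw [Finset.sum_eq_zero]
    intro i hi
    rw [if_neg]
    intro h2
    apply h
    have h3 := Finset.mem_range.1 hi
    have h4 : m 0 = i := by
      rw [← h2]
      simp
    have h5 : m 1 = n - i := by
      rw [← h2]
      simp
    rw [hdeg, h4, h5]
    omega

private theorem dh_mono (i j : ℕ) (c : ℤ) :
    Pool.Agent.H2.AA.dh (MvPolynomial.monomial (Finsupp.single 0 i + Finsupp.single 1 j) c) =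
      Polynomial.monomial i c := by
  unfold Pool.Agent.H2.AA.dh
  have h1 : (Finsupp.single (0 : Fin 2) i + Finsupp.single 1 j : Fin 2 →₀ ℕ) 0 = i := by simp
  have h2 : (Finsupp.single (0 : Fin 2) i + Finsupp.single 1 j : Fin 2 →₀ ℕ) 1 = j := by simp
  rw [MvPolynomial.aeval_monomial, Finsupp.prod_fintype _ _ (fun _ => pow_zero _), Fin.prod_univ_two,
    h1, h2]
  simp only [Matrix.cons_val_zero, Matrix.cons_val_one, one_pow, mul_one]
  exact Polynomial.C_mul_X_pow_eq_monomial

private theorem fm_sw (n : ℕ) (G : MvPolynomial (Fin 2) ℤ) :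
    fm (sw (ar G)) n = Pool.Agent.H2.AA.dh (MvPolynomial.homogeneousComponent n G) := by
  rw [hc_eq]
  have h1 : Pool.Agent.H2.AA.dh (∑ i ∈ range (n + 1),
      MvPolynomial.monomial (Finsupp.single 0 i + Finsupp.single 1 (n - i)) (ar G i (n - i))) =
      ∑ i ∈ range (n + 1), Pool.Agent.H2.AA.dh
        (MvPolynomial.monomial (Finsupp.single 0 i + Finsupp.single 1 (n - i)) (ar G i (n - i))) := by
    unfold Pool.Agent.H2.AA.dh
    rw [map_sum]
  rw [h1]
  unfold fm sw
  refine Finset.sum_congr rfl fun j _ => ?_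
  rw [dh_mono]

private theorem fm_id (n : ℕ) (G : MvPolynomial (Fin 2) ℤ) :
    fm (ar G) n = Pool.Agent.H2.AA.dh
      (MvPolynomial.rename (Equiv.swap (0 : Fin 2) 1) (MvPolynomial.homogeneousComponent n G)) := by
  rw [hc_eq]
  have h1 : Pool.Agent.H2.AA.dh (MvPolynomial.rename (Equiv.swap (0 : Fin 2) 1) (∑ i ∈ range (n + 1),
      MvPolynomial.monomial (Finsupp.single 0 i + Finsupp.single 1 (n - i)) (ar G i (n - i)))) =
      ∑ i ∈ range (n + 1), Polynomial.monomial (n - i) (ar G i (n - i)) := by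
    unfold Pool.Agent.H2.AA.dh
    rw [map_sum, map_sum]
    refine Finset.sum_congr rfl fun i _ => ?_
    rw [MvPolynomial.rename_monomial]
    have h2 : Finsupp.mapDomain (Equiv.swap (0 : Fin 2) 1)
        (Finsupp.single (0 : Fin 2) i + Finsupp.single 1 (n - i)) =
        Finsupp.single 0 (n - i) + Finsupp.single 1 i := by
      rw [Finsupp.mapDomain_add, Finsupp.mapDomain_single, Finsupp.mapDomain_single,
        Equiv.swap_apply_left, Equiv.swap_apply_right, add_comm]
    rw [h2]
    exact dh_mono _ _ _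
  rw [h1]
  unfold fm
  rw [← Finset.sum_range_reflect]
  refine Finset.sum_congr rfl fun j hj => ?_
  have h3 := Finset.mem_range.1 hj
  have h4 : n + 1 - 1 - j = n - j := by omega
  have h5 : n - (n - j) = j := by omega
  rw [h4, h5]

theorem irr_sw' {n : ℕ} (hn : 2 ≤ n) {G : MvPolynomial (Fin 2) ℤ}
    (h : Irreducible (MvPolynomial.map (Int.castRingHom ℚ) (MvPolynomial.homogeneousComponent n G))) :
    ((fm (sw (ar G)) n).map (Int.castRingHom ℚ)).natDegree = n ∧
      Irreducible ((fm (sw (ar G)) n).map (Int.castRingHom ℚ)) := by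
  rw [fm_sw, ← Pool.Agent.H2.AA.dh_map]
  exact Pool.Agent.H2.AA.dh_irr hn ((MvPolynomial.homogeneousComponent_isHomogeneous _ _).map _) h

theorem irr_id' {n : ℕ} (hn : 2 ≤ n) {G : MvPolynomial (Fin 2) ℤ}
    (h : Irreducible (MvPolynomial.map (Int.castRingHom ℚ) (MvPolynomial.homogeneousComponent n G))) :
    ((fm (ar G) n).map (Int.castRingHom ℚ)).natDegree = n ∧
      Irreducible ((fm (ar G) n).map (Int.castRingHom ℚ)) := by
  rw [fm_id, ← Pool.Agent.H2.AA.dh_map, MvPolynomial.map_rename]
  refine Pool.Agent.H2.AA.dh_irr hn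
    ((MvPolynomial.homogeneousComponent_isHomogeneous _ _).map _).rename_isHomogeneous ?_
  exact (MulEquiv.irreducible_iff (MvPolynomial.renameEquiv ℚ (Equiv.swap (0 : Fin 2) 1))).2 h


theorem deg_of' {n : ℕ} {φ : Polynomial ℤ} (h : (φ.map (Int.castRingHom ℚ)).natDegree = n) : φ.natDegree = n := by
  rw [Polynomial.natDegree_map_eq_of_injective (RingHom.injective_int (Int.castRingHom ℚ))] at h
  exact h

theorem nzs_of {n : ℕ} {G : MvPolynomial (Fin 2) ℤ} (hnz : Nz n (ar G)) : Nz n (sw (ar G)) := by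
  intro v w hvw
  have h1 := hnz w v hvw.symm
  intro h0
  apply h1
  rw [← h0, ← Finset.sum_range_reflect]
  refine Finset.sum_congr rfl fun k hk => ?_
  have hk' : k ≤ n := by
    have := Finset.mem_range.1 hk
    omega
  have e1 : n + 1 - 1 - k = n - k := by omega
  have e2 : n - (n - k) = k := by omega
  rw [e1, e2]
  show ar G k (n - k) * (w ^ k * v ^ (n - k)) = sw (ar G) (n - k) k * (v ^ (n - k) * w ^ k)
  unfold sw
  ring

end Pool.Agent.H12.TU
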