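import Pool.Agent.H12.TU.Hy4
import Pool.Agent.H12.TU.Hal
import Pool.Agent.H12.TU.Irf
import Pool.Agent.H88.TS.Mid

/-! # [H12 TU MID4] The middle range for `n = 4`, `j = 3` (helper12) -/

namespace Pool.Agent.H12.TU

open MvPolynomial Pool.Agent.H8.AA Pool.Agent.H88.A2

theorem mid4 (G : MvPolynomial (Fin 2) ℤ) (hG : G.totalDegree ≤ 4)
    (hirr : Irreducible (map (Int.castRingHom ℚ) (homogeneousComponent 4 G))) (B E : ℕ) (hB : 2 ≤ B)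
    (hGB : ∀ m, |G.coeff m| + 1 ≤ (B : ℤ)) :
    ∃ A C : ℝ, 1 ≤ A ∧ 0 ≤ C ∧ ∀ H : ℕ, 1 ≤ H → ∀ T : Finset (Ix 3 → ℤ),
      (∀ c ∈ T, (∀ p, |c p| ≤ (H : ℤ)) ∧ ∃ P : Fin 2 → ℤ, eval P (G + pol c) = 0 ∧
        A * H ≤ max |(P 0 : ℝ)| |(P 1 : ℝ)| ∧ max |(P 0 : ℝ)| |(P 1 : ℝ)| ≤ ((B * H : ℕ) : ℝ) ^ E) →
      (T.card : ℝ) ≤ C * (2 * (H : ℝ) + 1) ^ (Fintype.card (Ix 3) - 1) * (H : ℝ) ^ (-(1 / 2) : ℝ) := by
  classical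
  obtain ⟨A₀, hA₀, hgd, hgds⟩ := gd_of (by omega : 2 ≤ 4) hirr 1 one_pos
  have hc0 : (0 : ℝ) < 1 / A₀ := by positivity
  have hnz := nz_of (by omega : 2 ≤ 4) hirr
  obtain ⟨hd1, hi1⟩ := irr_id' (by omega : 2 ≤ 4) hirr
  obtain ⟨hd2, hi2⟩ := irr_sw' (by omega : 2 ≤ 4) hirr
  obtain ⟨A₁, C₁, hA₁, hC₁, h₁⟩ := half (ar G) hnz _ hc0 hgd (deg_of' hd1) hi1 B E hB fun a b _ => hGB _
  obtain ⟨A₂, C₂, hA₂, hC₂, h₂⟩ := half (sw (ar G)) (nzs_of hnz) _ hc0 hgds (deg_of' hd2) hi2 B E hB fun a b _ => hGB _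
  refine ⟨max A₁ A₂, C₁ + C₂, hA₁.trans (le_max_left _ _), by positivity, ?_⟩
  intro H hH T hT
  have hH1 : (1 : ℝ) ≤ H := by exact_mod_cast hH
  have hH0 : (0 : ℝ) < H := by linarith
  have hcard : Fintype.card (Ix 3) - 1 = 9 := by rw [card_ix]
  rw [hcard]
  obtain ⟨T₁, hT₁⟩ : ∃ T₁ : Finset (Ix 3 → ℤ), T₁ = T.filter fun c => ∃ x y : ℤ, |y| ≤ |x| ∧ A₁ * H ≤ |(x : ℝ)| ∧
      |(x : ℝ)| ≤ ((B * H : ℕ) : ℝ) ^ E ∧ ev 4 (ar G) x y + ev 3 (co c) x y = 0 := ⟨_, rfl⟩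
  obtain ⟨T₂, hT₂⟩ : ∃ T₂ : Finset (Ix 3 → ℤ), T₂ = T.filter fun c => ∃ x y : ℤ, |y| ≤ |x| ∧ A₂ * H ≤ |(x : ℝ)| ∧
      |(x : ℝ)| ≤ ((B * H : ℕ) : ℝ) ^ E ∧ ev 4 (sw (ar G)) x y + ev 3 (co c) y x = 0 := ⟨_, rfl⟩
  have hsub : T ⊆ T₁ ∪ T₂ := by
    intro c hc
    obtain ⟨P, hP, h1, h2⟩ := (hT c hc).2
    have h3 : ev 4 (ar G) (P 0) (P 1) + ev 3 (co c) (P 0) (P 1) = 0 := by
      rw [ar_ev hG P, ← Pool.Agent.H8.AA.pol_eval, ← map_add]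
      exact hP
    rw [Finset.mem_union, hT₁, hT₂, Finset.mem_filter, Finset.mem_filter]
    rcases le_total |P 1| |P 0| with h4 | h4
    · left
      have h4' : |(P 1 : ℝ)| ≤ |(P 0 : ℝ)| := by exact_mod_cast h4
      rw [max_eq_left h4'] at h1 h2
      exact ⟨hc, P 0, P 1, h4, (mul_le_mul_of_nonneg_right (le_max_left _ _) hH0.le).trans h1, h2, h3⟩
    · right
      have h4' : |(P 0 : ℝ)| ≤ |(P 1 : ℝ)| := by exact_mod_cast h4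
      rw [max_eq_right h4'] at h1 h2
      refine ⟨hc, P 1, P 0, h4, (mul_le_mul_of_nonneg_right (le_max_right _ _) hH0.le).trans h1, h2, ?_⟩
      rw [ev_sw]
      exact h3
  have hb1 : (T₁.card : ℝ) ≤ C₁ * (2 * (H : ℝ) + 1) ^ 9 * (H : ℝ) ^ (-(1 / 2) : ℝ) := by
    refine h₁ H hH T₁ ?_
    intro c hc
    rw [hT₁, Finset.mem_filter] at hc
    exact ⟨(hT c hc.1).1, hc.2⟩
  have hb2 : (T₂.card : ℝ) ≤ C₂ * (2 * (H : ℝ) + 1) ^ 9 * (H : ℝ) ^ (-(1 / 2) : ℝ) := by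
    have hinj : Function.Injective (Pool.Agent.H88.TS.sv (n := 3)) := by
      intro c c' h
      have h1 := congrArg Pool.Agent.H88.TS.sv h
      rwa [Pool.Agent.H88.TS.sv_sv, Pool.Agent.H88.TS.sv_sv] at h1
    rw [← Finset.card_image_of_injective T₂ hinj]
    refine h₂ H hH (T₂.image Pool.Agent.H88.TS.sv) ?_
    intro c' hc'
    obtain ⟨c, hc, rfl⟩ := Finset.mem_image.1 hc'
    rw [hT₂, Finset.mem_filter] at hc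
    refine ⟨fun p => (hT c hc.1).1 _, ?_⟩
    obtain ⟨x, y, g1, g2, g3, g4⟩ := hc.2
    refine ⟨x, y, g1, g2, g3, ?_⟩
    rw [Pool.Agent.H88.TS.sv_ev]
    exact g4
  have hcT : (T.card : ℝ) ≤ (T₁.card : ℝ) + T₂.card := by
    exact_mod_cast (Finset.card_le_card hsub).trans (Finset.card_union_le _ _)
  calc (T.card : ℝ) ≤ C₁ * (2 * (H : ℝ) + 1) ^ 9 * (H : ℝ) ^ (-(1 / 2) : ℝ) + C₂ * (2 * (H : ℝ) + 1) ^ 9 * (H : ℝ) ^ (-(1 / 2) : ℝ) := by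
        linarith
    _ = _ := by ring

end Pool.Agent.H12.TU
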