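import Pool.Agent.H12.TU.Mid4

/-! # [H12 TU MIJ4] The middle range, all `n ≥ 4` (helper12; `low` and `high` are helper88's `TS.Mij`)

PROOF. `j ≤ n - 2`: `mid` with `G' = G`; `H^(5/2) K^(M-j-1) ≤ K^(M-1) H^(-1/2)` as `j ≥ 3`. `j = n - 1`: `fib` with `J = {p | p.1 + p.2 ≤ n - 2}`: fixed `c` off `J`; the vectors of the fibre are
`d + e` with `d` = (`c` off `J`, `0` on `J`), `e ∈ Ix (n-2)`; `G' = G + pol d`, degree `n - 1` coefficients `≤ B H`. `mid` with `n - 2` for `j`: at most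
`C H^(5/2) K^(|J| - (n-1))` in a fibre (round up to a natural number), `K^(M-|J|)` fibres; `n - 1 ≥ 4`. -/

namespace Pool.Agent.H12.TU

open MvPolynomial Pool.Agent.H8.AA Pool.Agent.H88.A2 Pool.Agent.H88.TS

private theorem mij_num (H a b : ℕ) (hH : 1 ≤ H) (ha : 3 ≤ a) (hb : a ≤ b) :
    (H : ℝ) ^ (5 / 2 : ℝ) * (2 * (H : ℝ) + 1) ^ (b - a) ≤ (2 * (H : ℝ) + 1) ^ b * (H : ℝ) ^ (-(1 / 2) : ℝ) := by
  have hH1 : (1 : ℝ) ≤ (H : ℝ) := by exact_mod_cast hH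
  have hH0 : (0 : ℝ) < (H : ℝ) := by linarith
  have h1 : (H : ℝ) ^ (5 / 2 : ℝ) = (H : ℝ) ^ (3 : ℕ) * (H : ℝ) ^ (-(1 / 2) : ℝ) := by
    rw [← Real.rpow_natCast (H : ℝ) 3, ← Real.rpow_add hH0]
    norm_num
  have h2 : (2 * (H : ℝ) + 1) ^ b = (2 * (H : ℝ) + 1) ^ a * (2 * (H : ℝ) + 1) ^ (b - a) := by
    rw [← pow_add]
    congr 1
    omega
  have h3 : (H : ℝ) ^ 3 ≤ (2 * (H : ℝ) + 1) ^ a :=
    (pow_le_pow_left₀ hH0.le (by linarith : (H : ℝ) ≤ 2 * (H : ℝ) + 1) 3).trans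
      (pow_le_pow_right₀ (by linarith) ha)
  have h4 : 0 ≤ (H : ℝ) ^ (-(1 / 2) : ℝ) := Real.rpow_nonneg hH0.le _
  have h5 : 0 ≤ (2 * (H : ℝ) + 1) ^ (b - a) := pow_nonneg (by linarith) _
  rw [h1, h2]
  have h6 : (H : ℝ) ^ 3 * ((H : ℝ) ^ (-(1 / 2) : ℝ) * (2 * (H : ℝ) + 1) ^ (b - a)) ≤
      (2 * (H : ℝ) + 1) ^ a * ((H : ℝ) ^ (-(1 / 2) : ℝ) * (2 * (H : ℝ) + 1) ^ (b - a)) :=
    mul_le_mul_of_nonneg_right h3 (mul_nonneg h4 h5)
  nlinarith [h6]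

/-- exponents of degree `≤ i` among those of degree `≤ i + 1` -/
private def phi {i : ℕ} (q : Ix i) : Ix (i + 1) := ix q.1.1.val q.1.2.val (by have := q.2; omega)

private theorem phi_inj {i : ℕ} : Function.Injective (phi (i := i)) := by
  intro p q hpq
  have h := congrArg (fun r : Ix (i + 1) => (r.1.1.val, r.1.2.val)) hpq
  simp only [phi, ix, Prod.mk.injEq] at h
  exact Subtype.ext (Prod.ext (Fin.ext h.1) (Fin.ext h.2))

private theorem phi_ix {i : ℕ} (a b : ℕ) (h : a + b ≤ i) : phi (ix a b h) = ix a b (by omega : a + b ≤ i + 1) := rfl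

private def JJ (i : ℕ) : Finset (Ix (i + 1)) := Finset.univ.filter fun p => p.1.1.val + p.1.2.val ≤ i

private theorem JJ_card (i : ℕ) : Fintype.card (Ix i) ≤ (JJ i).card := by
  rw [← Finset.card_univ]
  refine Finset.card_le_card_of_injOn phi (fun q _ => ?_) (phi_inj.injOn)
  have := q.2
  simp only [JJ, Finset.coe_filter, Finset.mem_univ, true_and, Set.mem_setOf_eq]
  exact this

private theorem split {i : ℕ} (c c' : Ix (i + 1) → ℤ) (h : ∀ p, p ∉ JJ i → c' p = c p) :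
    pol c' = pol (fun p => if p ∈ JJ i then 0 else c p) + pol (fun q : Ix i => c' (phi q)) := by
  ext m
  rw [coeff_add, pol_coeff, pol_coeff, pol_coeff]
  generalize m 0 = a
  generalize m 1 = b
  by_cases h1 : a + b ≤ i
  · rw [co_of_le c' (by omega : a + b ≤ i + 1), co_of_le _ (by omega : a + b ≤ i + 1), co_of_le _ h1, phi_ix]
    rw [if_pos (by simp only [JJ, Finset.mem_filter, Finset.mem_univ, true_and, ix]; exact h1), zero_add]
  · by_cases h2 : a + b ≤ i + 1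
    · have h3 : (ix a b h2 : Ix (i + 1)) ∉ JJ i := by
        simp only [JJ, Finset.mem_filter, Finset.mem_univ, true_and, ix]
        exact h1
      rw [co_of_le c' h2, co_of_le _ h2, if_neg h3, h _ h3]
      unfold co
      rw [dif_neg h1, add_zero]
    · unfold co
      rw [dif_neg h2, dif_neg h2, dif_neg h1, add_zero]

private theorem ar_bound (G : MvPolynomial (Fin 2) ℤ) (B : ℕ) (hGB : ∀ m, |G.coeff m| + 1 ≤ (B : ℤ)) (a b : ℕ) :
    |ar G a b| + 1 ≤ (B : ℤ) := hGB _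

private theorem low (n j : ℕ) (G : MvPolynomial (Fin 2) ℤ) (h : Hy4 n j G) (hn5 : 5 ≤ n) (hj2 : j + 2 ≤ n) (B E : ℕ) (hB : 2 ≤ B)
    (hGB : ∀ m, |G.coeff m| + 1 ≤ (B : ℤ)) :
    ∃ A C : ℝ, 1 ≤ A ∧ 0 ≤ C ∧ ∀ H : ℕ, 1 ≤ H → ∀ T : Finset (Ix j → ℤ),
      (∀ c ∈ T, (∀ p, |c p| ≤ (H : ℤ)) ∧ ∃ P : Fin 2 → ℤ, eval P (G + pol c) = 0 ∧
        A * H ≤ max |(P 0 : ℝ)| |(P 1 : ℝ)| ∧ max |(P 0 : ℝ)| |(P 1 : ℝ)| ≤ ((B * H : ℕ) : ℝ) ^ E) →
      (T.card : ℝ) ≤ C * (2 * (H : ℝ) + 1) ^ (Fintype.card (Ix j) - 1) * (H : ℝ) ^ (-(1 / 2) : ℝ) := by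
  obtain ⟨A, C, hA, hC, hm⟩ := mid n j hn5 h.hj hj2 G h.deg h.irr B E hB
  refine ⟨A, C, hA, hC, fun H hH T hT => ?_⟩
  have h1 := hm H hH G h.deg rfl (fun a b hab => by
    have h2 := ar_bound G B hGB a b
    have h3 : (1 : ℤ) ≤ (H : ℤ) ^ (n - a - b) := one_le_pow₀ (by exact_mod_cast hH)
    have h4 : (0 : ℤ) ≤ (B : ℤ) := by positivity
    nlinarith) T hT
  have h5 : j + 1 ≤ Fintype.card (Ix j) := by
    rw [card_ix]
    have := h.hj
    rw [Nat.le_div_iff_mul_le (by norm_num)]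
    nlinarith
  have h6 := mij_num H j (Fintype.card (Ix j) - 1) hH h.hj (by omega)
  have h7 : Fintype.card (Ix j) - (j + 1) = Fintype.card (Ix j) - 1 - j := by omega
  rw [h7] at h1
  calc (T.card : ℝ) ≤ C * ((H : ℝ) ^ (5 / 2 : ℝ) * (2 * (H : ℝ) + 1) ^ (Fintype.card (Ix j) - 1 - j)) := by
        rw [← mul_assoc]; exact h1
    _ ≤ C * ((2 * (H : ℝ) + 1) ^ (Fintype.card (Ix j) - 1) * (H : ℝ) ^ (-(1 / 2) : ℝ)) := mul_le_mul_of_nonneg_left h6 hC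
    _ = _ := by rw [mul_assoc]

private theorem high (i : ℕ) (G : MvPolynomial (Fin 2) ℤ) (h : Hy4 (i + 2) (i + 1) G) (hn5 : 5 ≤ i + 2) (B E : ℕ) (hB : 2 ≤ B)
    (hGB : ∀ m, |G.coeff m| + 1 ≤ (B : ℤ)) :
    ∃ A C : ℝ, 1 ≤ A ∧ 0 ≤ C ∧ ∀ H : ℕ, 1 ≤ H → ∀ T : Finset (Ix (i + 1) → ℤ),
      (∀ c ∈ T, (∀ p, |c p| ≤ (H : ℤ)) ∧ ∃ P : Fin 2 → ℤ, eval P (G + pol c) = 0 ∧
        A * H ≤ max |(P 0 : ℝ)| |(P 1 : ℝ)| ∧ max |(P 0 : ℝ)| |(P 1 : ℝ)| ≤ ((B * H : ℕ) : ℝ) ^ E) →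
      (T.card : ℝ) ≤ C * (2 * (H : ℝ) + 1) ^ (Fintype.card (Ix (i + 1)) - 1) * (H : ℝ) ^ (-(1 / 2) : ℝ) := by
  have hi : 3 ≤ i := by omega
  obtain ⟨A, C, hA, hC, hm⟩ := mid (i + 2) i hn5 hi le_rfl G h.deg h.irr B E hB
  refine ⟨A, C, hA, hC, fun H hH T hT => ?_⟩
  have hH1 : (1 : ℝ) ≤ (H : ℝ) := by exact_mod_cast hH
  have hHz : (1 : ℤ) ≤ (H : ℤ) := by exact_mod_cast hH
  have hBz : (2 : ℤ) ≤ (B : ℤ) := by exact_mod_cast hB
  have hX : 0 ≤ C * (H : ℝ) ^ (5 / 2 : ℝ) * (2 * (H : ℝ) + 1) ^ (Fintype.card (Ix i) - (i + 1)) := by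
    positivity
  have hf := fib (JJ i) H ⌊C * (H : ℝ) ^ (5 / 2 : ℝ) * (2 * (H : ℝ) + 1) ^ (Fintype.card (Ix i) - (i + 1))⌋₊ T
    (fun c hc p => (hT c hc).1 p) (by
      intro c hc T' hT'
      rw [Nat.le_floor_iff hX]
      have hinj : Set.InjOn (fun c' : Ix (i + 1) → ℤ => fun q : Ix i => c' (phi q)) (T' : Set (Ix (i + 1) → ℤ)) := by
        intro c₁ h₁ c₂ h₂ h12
        funext p
        by_cases hp : p ∈ JJ i
        · have hp' : p.1.1.val + p.1.2.val ≤ i := by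
            simpa only [JJ, Finset.mem_filter, Finset.mem_univ, true_and] using hp
          have h3 := congrFun h12 (ix p.1.1.val p.1.2.val hp')
          exact h3
        · rw [(hT' c₁ h₁).2 p hp, (hT' c₂ h₂).2 p hp]
      rw [← Finset.card_image_of_injOn hinj]
      have hdeg : (pol fun p => if p ∈ JJ i then (0 : ℤ) else c p).totalDegree ≤ i + 1 := Pool.Agent.H8.AA.pol_deg _
      refine hm H hH (G + pol (fun p => if p ∈ JJ i then 0 else c p)) ?_ ?_ ?_ _ ?_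
      · exact (totalDegree_add _ _).trans (max_le h.deg (hdeg.trans (by omega)))
      · rw [map_add, homogeneousComponent_eq_zero (i + 2) (pol fun p => if p ∈ JJ i then (0 : ℤ) else c p) (by omega), add_zero]
      · intro a b hab
        rw [ar_add, ar_pol]
        have h2 := ar_bound G B hGB a b
        by_cases h1 : a + b ≤ i
        · rw [co_of_le _ (by omega : a + b ≤ i + 1),
            if_pos (by simp only [JJ, Finset.mem_filter, Finset.mem_univ, true_and, ix]; exact h1), add_zero]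
          have h3 : (1 : ℤ) ≤ (H : ℤ) ^ (i + 2 - a - b) := one_le_pow₀ hHz
          nlinarith
        · by_cases h3 : a + b ≤ i + 1
          · rw [co_of_le _ h3,
              if_neg (by simp only [JJ, Finset.mem_filter, Finset.mem_univ, true_and, ix]; exact h1)]
            have h4 : i + 2 - a - b = 1 := by omega
            rw [h4, pow_one]
            have h5 := (hT c hc).1 (ix a b h3)
            have h6 := abs_add_le (ar G a b) (c (ix a b h3))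
            nlinarith
          · have h4 : co (fun p => if p ∈ JJ i then (0 : ℤ) else c p) a b = 0 := by
              unfold co
              rw [dif_neg h3]
            rw [h4, add_zero]
            have h3 : (1 : ℤ) ≤ (H : ℤ) ^ (i + 2 - a - b) := one_le_pow₀ hHz
            nlinarith
      · intro e he
        obtain ⟨c', hc', rfl⟩ := Finset.mem_image.1 he
        obtain ⟨hc1, hc2⟩ := hT' c' hc'
        obtain ⟨h1, P, hP, h2⟩ := hT c' hc1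
        refine ⟨fun q => h1 _, P, ?_, h2⟩
        rw [add_assoc, ← split c c' hc2]
        exact hP)
  have h5 : i + 1 ≤ Fintype.card (Ix i) := by
    rw [card_ix, Nat.le_div_iff_mul_le (by norm_num)]
    nlinarith
  have h6 : Fintype.card (Ix i) ≤ Fintype.card (Ix (i + 1)) := Fintype.card_le_of_injective phi phi_inj
  have h7 := JJ_card i
  have h8 : (⌊C * (H : ℝ) ^ (5 / 2 : ℝ) * (2 * (H : ℝ) + 1) ^ (Fintype.card (Ix i) - (i + 1))⌋₊ : ℝ) ≤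
      C * (H : ℝ) ^ (5 / 2 : ℝ) * (2 * (H : ℝ) + 1) ^ (Fintype.card (Ix i) - (i + 1)) := Nat.floor_le hX
  have h9 : (2 * (H : ℝ) + 1) ^ (Fintype.card (Ix (i + 1)) - (JJ i).card) ≤
      (2 * (H : ℝ) + 1) ^ (Fintype.card (Ix (i + 1)) - Fintype.card (Ix i)) :=
    pow_le_pow_right₀ (by linarith) (by omega)
  have h10 := mij_num H i (Fintype.card (Ix (i + 1)) - 1) hH hi (by omega)
  have h11 : (2 * (H : ℝ) + 1) ^ (Fintype.card (Ix i) - (i + 1)) * (2 * (H : ℝ) + 1) ^ (Fintype.card (Ix (i + 1)) - Fintype.card (Ix i)) =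
      (2 * (H : ℝ) + 1) ^ (Fintype.card (Ix (i + 1)) - 1 - i) := by
    rw [← pow_add]
    congr 1
    omega
  have hfr : (T.card : ℝ) ≤ (⌊C * (H : ℝ) ^ (5 / 2 : ℝ) * (2 * (H : ℝ) + 1) ^ (Fintype.card (Ix i) - (i + 1))⌋₊ : ℝ) *
      (2 * (H : ℝ) + 1) ^ (Fintype.card (Ix (i + 1)) - (JJ i).card) := by
    exact_mod_cast hf
  calc (T.card : ℝ) ≤ _ := hfr
    _ ≤ (C * (H : ℝ) ^ (5 / 2 : ℝ) * (2 * (H : ℝ) + 1) ^ (Fintype.card (Ix i) - (i + 1))) *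
        (2 * (H : ℝ) + 1) ^ (Fintype.card (Ix (i + 1)) - Fintype.card (Ix i)) :=
        mul_le_mul h8 h9 (by positivity) hX
    _ = C * ((H : ℝ) ^ (5 / 2 : ℝ) * (2 * (H : ℝ) + 1) ^ (Fintype.card (Ix (i + 1)) - 1 - i)) := by
        rw [← h11]; ring
    _ ≤ C * ((2 * (H : ℝ) + 1) ^ (Fintype.card (Ix (i + 1)) - 1) * (H : ℝ) ^ (-(1 / 2) : ℝ)) := mul_le_mul_of_nonneg_left h10 hC
    _ = _ := by rw [mul_assoc]

theorem mij4 (n j : ℕ) (G : MvPolynomial (Fin 2) ℤ) (h : Hy4 n j G) (B E : ℕ) (hB : 2 ≤ B) (hGB : ∀ m, |G.coeff m| + 1 ≤ (B : ℤ)) :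
    ∃ A C : ℝ, 1 ≤ A ∧ 0 ≤ C ∧ ∀ H : ℕ, 1 ≤ H → ∀ T : Finset (Ix j → ℤ),
      (∀ c ∈ T, (∀ p, |c p| ≤ (H : ℤ)) ∧ ∃ P : Fin 2 → ℤ, eval P (G + pol c) = 0 ∧
        A * H ≤ max |(P 0 : ℝ)| |(P 1 : ℝ)| ∧ max |(P 0 : ℝ)| |(P 1 : ℝ)| ≤ ((B * H : ℕ) : ℝ) ^ E) →
      (T.card : ℝ) ≤ C * (2 * (H : ℝ) + 1) ^ (Fintype.card (Ix j) - 1) * (H : ℝ) ^ (-(1 / 2) : ℝ) := by
  by_cases hn5 : 5 ≤ n
  · by_cases hj2 : j + 2 ≤ n
    · exact low n j G h hn5 hj2 B E hB hGB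
    · have h1 := h.hj
      have h2 := h.hjn
      obtain ⟨i, rfl⟩ : ∃ i, j = i + 1 := ⟨j - 1, by omega⟩
      obtain rfl : n = i + 2 := by omega
      exact high i G h hn5 B E hB hGB
  · have h1 := h.hn
    have h2 := h.hj
    have h3 := h.hjn
    obtain rfl : n = 4 := by omega
    obtain rfl : j = 3 := by omega
    exact mid4 G h.deg h.irr B E hB hGB

end Pool.Agent.H12.TU
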