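import Pool.Agent.H12.TU.Dgs

/-! # [H12 TU PT4] One point, `n = 4`, `j = 3`; the sum over points near the lines (helper12) -/

namespace Pool.Agent.H12.TU

open Polynomial Pool.Agent.H8.AA

theorem pt4 (f : ℤ[X]) (hf : f.natDegree = 4) (hirr : Irreducible (f.map (Int.castRingHom ℚ))) (R : ℝ) (hR : 1 ≤ R) :
    ∃ A K : ℝ, 1 ≤ A ∧ 0 ≤ K ∧ ∀ t : ℝ, aeval t f = 0 → |t| ≤ 2 → ∀ (H : ℕ) (x y : ℤ), 1 ≤ H →
    A * H ≤ |(x : ℝ)| → |y| ≤ |x| → |(y : ℝ) - t * x| ≤ R * H →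
    ∀ (N : ℤ) (U : Finset (Ix 3 → ℤ)), (∀ u ∈ U, (∀ p, |u p| ≤ (H : ℤ)) ∧ ev 3 (co u) x y = N) →
    (U.card : ℝ) ≤ K * (1 + (H : ℝ) ^ 7 / |(x : ℝ)|) := by
  obtain ⟨c, hc0, hc1, hc⟩ := dgs 4 f hf hirr R hR
  refine ⟨1 / c, 10 ^ 6 / c, by rw [le_div_iff₀ hc0]; linarith, by positivity, ?_⟩
  intro t ht ht2 H x y hH hAx hyx hyt N U hU
  have hH1 : (1 : ℝ) ≤ H := by exact_mod_cast hH
  have hH0 : (0 : ℝ) < H := by linarith
  have hAx' : (H : ℝ) ≤ c * |(x : ℝ)| := by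
    rw [div_mul_eq_mul_div, one_mul, div_le_iff₀ hc0] at hAx
    linarith
  have hHx : (H : ℝ) ≤ |(x : ℝ)| := hAx'.trans (mul_le_of_le_one_left (abs_nonneg _) hc1)
  have hX0 : 0 < |(x : ℝ)| := by linarith
  obtain ⟨q, hq⟩ : ∃ q : ℝ, q = c * |(x : ℝ)| / H := ⟨_, rfl⟩
  have hq1 : 1 ≤ q := by
    rw [hq, le_div_iff₀ hH0]
    linarith
  obtain ⟨r, hr⟩ : ∃ r : ℝ, r = q ^ (1 / 4 : ℝ) := ⟨_, rfl⟩
  have hr1 : 1 ≤ r := by
    rw [hr]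
    exact Real.one_le_rpow hq1 (by norm_num)
  have hr4 : r ^ 4 = q := by
    rw [hr, ← Real.rpow_natCast, ← Real.rpow_mul (by linarith)]
    norm_num
  obtain ⟨h, hh⟩ : ∃ h : ℝ, h = min (H : ℝ) r := ⟨_, rfl⟩
  have hh1 : 1 ≤ h := by rw [hh]; exact le_min hH1 hr1
  have hhH : h ≤ H := by rw [hh]; exact min_le_left _ _
  have hhr : h ≤ r := by rw [hh]; exact min_le_right _ _
  have hh4 : h ^ 4 * H ≤ c * |(x : ℝ)| := by
    have h1 : h ^ 4 ≤ q := by rw [← hr4]; gcongr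
    calc h ^ 4 * H ≤ q * H := mul_le_mul_of_nonneg_right h1 hH0.le
      _ = _ := by rw [hq]; field_simp
  have h1 := hc t ht ht2 H x y h hH hHx hyx hyt hh1 hhH hh4 3 (by norm_num) N U hU
  have h2 : 3 * (3 + 1) / 2 = 6 := by norm_num
  rw [h2, mul_pow] at h1
  have h3 : ((H : ℝ) / h) ^ 6 ≤ 1 + (H : ℝ) ^ 7 / (c * |(x : ℝ)|) := by
    have h0 : 0 ≤ (H : ℝ) ^ 7 / (c * |(x : ℝ)|) := by positivity
    rcases min_choice (H : ℝ) r with h4 | h4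
    · rw [hh, h4, div_self hH0.ne', one_pow]
      linarith
    · have h5 : h = r := by rw [hh, h4]
      have h6 : ((H : ℝ) / h) ^ 4 = (H : ℝ) ^ 5 / (c * |(x : ℝ)|) := by
        rw [div_pow, h5, hr4, hq]
        field_simp
      have h7 : (H : ℝ) / h ≤ H := div_le_self hH0.le hh1
      have h8 : 0 ≤ (H : ℝ) / h := by positivity
      have h9 : ((H : ℝ) / h) ^ 2 ≤ (H : ℝ) ^ 2 := by gcongr
      calc ((H : ℝ) / h) ^ 6 = ((H : ℝ) / h) ^ 4 * ((H : ℝ) / h) ^ 2 := by ring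
        _ ≤ (H : ℝ) ^ 5 / (c * |(x : ℝ)|) * (H : ℝ) ^ 2 := by
            rw [h6]
            exact mul_le_mul_of_nonneg_left h9 (by positivity)
        _ = (H : ℝ) ^ 7 / (c * |(x : ℝ)|) := by ring
        _ ≤ _ := by linarith
  have h4 : (U.card : ℝ) ≤ 10 ^ 6 * (1 + (H : ℝ) ^ 7 / (c * |(x : ℝ)|)) :=
    h1.trans (mul_le_mul_of_nonneg_left h3 (by norm_num))
  refine h4.trans ?_
  have h5 : (10 : ℝ) ^ 6 / c * (1 + (H : ℝ) ^ 7 / |(x : ℝ)|) = 10 ^ 6 * (1 / c + (H : ℝ) ^ 7 / (c * |(x : ℝ)|)) := by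
    field_simp
  rw [h5]
  refine mul_le_mul_of_nonneg_left ?_ (by norm_num)
  have h6 : 1 ≤ 1 / c := by rw [le_div_iff₀ hc0]; linarith
  linarith

private theorem icard (T : Finset ℤ) (a w : ℝ) (hT : ∀ y ∈ T, |(y : ℝ) - a| ≤ w) : (T.card : ℝ) ≤ 2 * w + 1 ∨ T.card = 0 := by
  rcases T.eq_empty_or_nonempty with h0 | ⟨y₀, hy₀⟩
  · right
    rw [h0, Finset.card_empty]
  left
  have h1 : T ⊆ Finset.Icc ⌈a - w⌉ ⌊a + w⌋ := by
    intro y hy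
    have h2 := abs_le.1 (hT y hy)
    rw [Finset.mem_Icc, Int.ceil_le, Int.le_floor]
    constructor <;> linarith [h2.1, h2.2]
  have h2 := Finset.card_le_card h1
  rw [Int.card_Icc] at h2
  have h3 : ⌈a - w⌉ ≤ ⌊a + w⌋ := by
    have := h1 hy₀
    rw [Finset.mem_Icc] at this
    exact this.1.trans this.2
  have h4 : (((⌊a + w⌋ + 1 - ⌈a - w⌉).toNat : ℕ) : ℝ) = (⌊a + w⌋ : ℝ) + 1 - (⌈a - w⌉ : ℝ) := by
    have h5 : (((⌊a + w⌋ + 1 - ⌈a - w⌉).toNat : ℕ) : ℤ) = ⌊a + w⌋ + 1 - ⌈a - w⌉ := Int.toNat_of_nonneg (by omega)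
    exact_mod_cast congrArg (fun z : ℤ => (z : ℝ)) h5
  have h5 : (T.card : ℝ) ≤ (((⌊a + w⌋ + 1 - ⌈a - w⌉).toNat : ℕ) : ℝ) := by exact_mod_cast h2
  rw [h4] at h5
  have h6 := Int.floor_le (a + w)
  have h7 := Int.le_ceil (a - w)
  linarith

/-- the sum over the integer points with first coordinate `≤ L` in size near the lines `y = t x`, `t ∈ Z` -/
theorem xsum (Z : Finset ℝ) (W : ℝ) (hW : 1 ≤ W) (L : ℕ) (D : ℝ) (hD : 0 ≤ D) (S : Finset (ℤ × ℤ))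
    (hS : ∀ Q ∈ S, Q.1 ≠ 0 ∧ Q.1.natAbs ≤ L ∧ ∃ t ∈ Z, |(Q.2 : ℝ) - t * Q.1| ≤ W) :
    ∑ Q ∈ S, (1 + D / |(Q.1 : ℝ)|) ≤ 6 * Z.card * W * (L + D * (1 + Real.log L)) := by
  classical
  have hmaps : ∀ Q ∈ S, Q.1.natAbs ∈ Finset.Icc 1 L := by
    intro Q hQ
    obtain ⟨h1, h2, _⟩ := hS Q hQ
    rw [Finset.mem_Icc]
    exact ⟨Nat.one_le_iff_ne_zero.2 (Int.natAbs_ne_zero.2 h1), h2⟩
  rw [← Finset.sum_fiberwise_of_maps_to hmaps]
  have hZ0 : (0 : ℝ) ≤ Z.card := Nat.cast_nonneg _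
  have hfib : ∀ m ∈ Finset.Icc 1 L, ∑ Q ∈ S.filter (fun Q => Q.1.natAbs = m), (1 + D / |(Q.1 : ℝ)|) ≤
      6 * Z.card * W * (1 + D * (m : ℝ)⁻¹) := by
    intro m hm
    rw [Finset.mem_Icc] at hm
    have hm1 : (1 : ℝ) ≤ m := by exact_mod_cast hm.1
    have h1 : ∑ Q ∈ S.filter (fun Q => Q.1.natAbs = m), (1 + D / |(Q.1 : ℝ)|) =
        ∑ Q ∈ S.filter (fun Q => Q.1.natAbs = m), (1 + D * (m : ℝ)⁻¹) := by
      refine Finset.sum_congr rfl fun Q hQ => ?_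
      rw [Finset.mem_filter] at hQ
      have h2 : |(Q.1 : ℝ)| = (m : ℝ) := by
        rw [← hQ.2, Nat.cast_natAbs, Int.cast_abs]
      rw [h2, div_eq_mul_inv]
    rw [h1, Finset.sum_const, nsmul_eq_mul]
    refine mul_le_mul_of_nonneg_right ?_ (by positivity)
    -- number of points with `|x| = m`
    have h3 : S.filter (fun Q => Q.1.natAbs = m) ⊆ (({(m : ℤ), -(m : ℤ)} : Finset ℤ) ×ˢ Z).biUnion fun z =>
        (S.filter fun Q => Q.1 = z.1 ∧ |(Q.2 : ℝ) - z.2 * z.1| ≤ W) := by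
      intro Q hQ
      rw [Finset.mem_filter] at hQ
      obtain ⟨hQ1, hQ2⟩ := hQ
      obtain ⟨_, _, t, ht, h4⟩ := hS Q hQ1
      rw [Finset.mem_biUnion]
      refine ⟨(Q.1, t), ?_, ?_⟩
      · rw [Finset.mem_product, Finset.mem_insert, Finset.mem_singleton]
        refine ⟨?_, ht⟩
        show Q.1 = m ∨ Q.1 = -m
        omega
      · rw [Finset.mem_filter]
        exact ⟨hQ1, rfl, h4⟩
    have h4 := (Finset.card_le_card h3).trans Finset.card_biUnion_le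
    have h5 : ∀ z ∈ ({(m : ℤ), -(m : ℤ)} : Finset ℤ) ×ˢ Z,
        (((S.filter fun Q => Q.1 = z.1 ∧ |(Q.2 : ℝ) - z.2 * z.1| ≤ W).card : ℕ) : ℝ) ≤ 3 * W := by
      intro z _
      have h6 : Set.InjOn Prod.snd ((S.filter fun Q => Q.1 = z.1 ∧ |(Q.2 : ℝ) - z.2 * z.1| ≤ W : Finset (ℤ × ℤ)) : Set (ℤ × ℤ)) := by
        intro Q hQ Q' hQ' hQQ
        rw [Finset.coe_filter] at hQ hQ'
        exact Prod.ext (hQ.2.1.trans hQ'.2.1.symm) hQQ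
      rw [← Finset.card_image_of_injOn h6]
      rcases icard ((S.filter fun Q => Q.1 = z.1 ∧ |(Q.2 : ℝ) - z.2 * z.1| ≤ W).image Prod.snd) (z.2 * z.1) W (by
        intro y hy
        obtain ⟨Q, hQ, rfl⟩ := Finset.mem_image.1 hy
        rw [Finset.mem_filter] at hQ
        exact hQ.2.2) with h7 | h7
      · linarith
      · rw [h7]
        push_cast
        linarith
    have h6 : (((S.filter (fun Q => Q.1.natAbs = m)).card : ℕ) : ℝ) ≤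
        ∑ z ∈ ({(m : ℤ), -(m : ℤ)} : Finset ℤ) ×ˢ Z, (((S.filter fun Q => Q.1 = z.1 ∧ |(Q.2 : ℝ) - z.2 * z.1| ≤ W).card : ℕ) : ℝ) := by
      exact_mod_cast h4
    refine h6.trans ((Finset.sum_le_sum h5).trans ?_)
    rw [Finset.sum_const, nsmul_eq_mul, Finset.card_product]
    have h7 : (({(m : ℤ), -(m : ℤ)} : Finset ℤ).card : ℝ) ≤ 2 := by
      exact_mod_cast Finset.card_le_two
    push_cast
    have h8 : 0 ≤ (Z.card : ℝ) * (3 * W) := by positivity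
    nlinarith
  refine (Finset.sum_le_sum hfib).trans ?_
  rw [← Finset.mul_sum]
  refine mul_le_mul_of_nonneg_left ?_ (by positivity)
  rw [Finset.sum_add_distrib, ← Finset.mul_sum, Finset.sum_const, Nat.card_Icc, nsmul_eq_mul, mul_one]
  have h1 : ∑ m ∈ Finset.Icc 1 L, ((m : ℝ))⁻¹ ≤ 1 + Real.log L := by
    have h2 := harmonic_le_one_add_log L
    have h3 : ((harmonic L : ℚ) : ℝ) = ∑ m ∈ Finset.Icc 1 L, ((m : ℝ))⁻¹ := by
      rw [harmonic_eq_sum_Icc]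
      push_cast
      rfl
    rw [← h3]
    exact h2
  have h2 : ((L + 1 - 1 : ℕ) : ℝ) = L := by simp
  rw [h2]
  have h3 := mul_le_mul_of_nonneg_left h1 hD
  linarith

end Pool.Agent.H12.TU
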